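import Mathlib

set_option autoImplicit false

open MeasureTheory Metric Filter Topology
open scoped ENNReal NNReal

namespace Pool.Agent.H86.Carpet

noncomputable section

/-- the carpet -/
def F (m n : ℕ) (D : Finset (ℕ × ℕ)) : Set (ℝ × ℝ) :=
  {p : ℝ × ℝ | ∃ d : ℕ → ℕ × ℕ, (∀ k, d k ∈ D) ∧
                p.1 = ∑' k, ((d k).1 : ℝ) / (m : ℝ) ^ (k + 1) ∧
                p.2 = ∑' k, ((d k).2 : ℝ) / (n : ℝ) ^ (k + 1)}

/-- the cross-shaped digit set -/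
def cross (m n : ℕ) : Finset (ℕ × ℕ) :=
  (Finset.range m ×ˢ {0}) ∪ ({0} ×ˢ Finset.range n)

lemma mem_cross {m n : ℕ} {d : ℕ × ℕ} :
    d ∈ cross m n ↔ (d.1 < m ∧ d.2 = 0) ∨ (d.1 = 0 ∧ d.2 < n) := by
  obtain ⟨a, b⟩ := d
  simp only [cross, Finset.mem_union, Finset.mem_product, Finset.mem_range, Finset.mem_singleton]

lemma tsum_eq_ofDigits (m : ℕ) (d : ℕ → ℕ) (hd : ∀ k, d k < m) :
    ∑' k, (d k : ℝ) / (m : ℝ) ^ (k + 1) = Real.ofDigits (fun k => (⟨d k, hd k⟩ : Fin m)) := by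
  simp [Real.ofDigits, Real.ofDigitsTerm, div_eq_mul_inv]

lemma tsum_diff_le (m : ℕ) (d d' : ℕ → ℕ) (hd : ∀ k, d k < m) (hd' : ∀ k, d' k < m) (N : ℕ)
    (h : ∀ i < N, d i = d' i) :
    |∑' k, (d k : ℝ) / (m : ℝ) ^ (k + 1) - ∑' k, (d' k : ℝ) / (m : ℝ) ^ (k + 1)|
      ≤ ((m : ℝ) ^ N)⁻¹ := by
  rw [tsum_eq_ofDigits m d hd, tsum_eq_ofDigits m d' hd']
  apply Real.abs_ofDigits_sub_ofDigits_le
  intro i hi
  simp [h i hi]

/-- number of zeros in a block of first coordinates -/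
def Z {h m n : ℕ} (w : Fin h → (cross m n : Finset (ℕ × ℕ))) : ℕ :=
  ∑ l, if (w l).1.1 = 0 then 1 else 0

/-- number of zeros in a word -/
def Z' {h m : ℕ} (u : Fin h → Fin m) : ℕ :=
  ∑ l, if (u l).1 = 0 then 1 else 0

/-- index type at level `i` -/
abbrev Idx (m n i : ℕ) := (Fin (16 * 2 ^ i) → (cross m n : Finset (ℕ × ℕ))) × (Fin (16 * 2 ^ i) → Fin m)

def cell (m n i : ℕ) (x : Idx m n i) : Set (ℝ × ℝ) :=
  {p | Z x.1 ≤ Z' x.2 + 2 ^ i ∧ ∃ d : ℕ → ℕ × ℕ, (∀ k, d k ∈ cross m n) ∧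
        p.1 = ∑' k, ((d k).1 : ℝ) / (m : ℝ) ^ (k + 1) ∧
        p.2 = ∑' k, ((d k).2 : ℝ) / (n : ℝ) ^ (k + 1) ∧
        (∀ l : Fin (16 * 2 ^ i), d l = (x.1 l).1) ∧
        (∀ l : Fin (16 * 2 ^ i), (d (16 * 2 ^ i + l)).1 = (x.2 l).1)}

lemma cross_lt {m n : ℕ} (hm : 0 < m) (hn : 0 < n) {d : ℕ × ℕ} (h : d ∈ cross m n) :
    d.1 < m ∧ d.2 < n := by
  rw [mem_cross] at h
  omega

lemma ediam_cell_le {m n : ℕ} (hm : 0 < m) (hn : 0 < n) (hmn : n ≤ m ^ 2) (i : ℕ) (x : Idx m n i) :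
    ediam (cell m n i x) ≤ ENNReal.ofReal (((n : ℝ) ^ (16 * 2 ^ i))⁻¹) := by
  apply ediam_le
  rintro p ⟨-, d, hd, hp1, hp2, hl, hl'⟩ q ⟨-, d', hd', hq1, hq2, hk, hk'⟩
  rw [edist_dist, Prod.dist_eq, Real.dist_eq, Real.dist_eq]
  apply ENNReal.ofReal_le_ofReal
  apply max_le
  · rw [hp1, hq1]
    refine (tsum_diff_le m (fun k => (d k).1) (fun k => (d' k).1)
      (fun k => (cross_lt hm hn (hd k)).1) (fun k => (cross_lt hm hn (hd' k)).1)
      (2 * (16 * 2 ^ i)) ?_).trans ?_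
    · intro j hj
      by_cases hj' : j < 16 * 2 ^ i
      · have h1 := hl ⟨j, hj'⟩
        have h2 := hk ⟨j, hj'⟩
        simp only at h1 h2 ⊢
        rw [h1, h2]
      · obtain ⟨l, rfl⟩ := Nat.exists_eq_add_of_le (not_lt.mp hj')
        have hl2 : l < 16 * 2 ^ i := by omega
        have h1 := hl' ⟨l, hl2⟩
        have h2 := hk' ⟨l, hl2⟩
        simp only at h1 h2 ⊢
        rw [h1, h2]
    · have hn' : (0 : ℝ) < n := by exact_mod_cast hn
      rw [pow_mul]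
      apply inv_anti₀ (by positivity)
      apply pow_le_pow_left₀ (by positivity)
      exact_mod_cast hmn
  · rw [hp2, hq2]
    refine (tsum_diff_le n (fun k => (d k).2) (fun k => (d' k).2)
      (fun k => (cross_lt hm hn (hd k)).2) (fun k => (cross_lt hm hn (hd' k)).2)
      (16 * 2 ^ i) ?_)
    intro j hj
    have h1 := hl ⟨j, hj⟩
    have h2 := hk ⟨j, hj⟩
    simp only at h1 h2 ⊢
    rw [h1, h2]

/-- the pigeonhole lemma on zero counts -/
lemma exists_good (z : ℕ → ℕ) (hz : ∀ i, z i ≤ 16 * 2 ^ i) (N : ℕ) :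
    ∃ i, N ≤ i ∧ 2 * z i ≤ z (i + 1) + 2 ^ i := by
  by_contra hcon
  push Not at hcon
  have key : ∀ l, 2 * z (N + l) + l * 2 ^ (N + l) ≤ 2 ^ (l + 1) * z N := by
    intro l
    induction l with
    | zero => simp
    | succ l ih =>
      have h1 := hcon (N + l) (by omega)
      have e1 : 2 ^ (N + (l + 1)) = 2 * 2 ^ (N + l) := by ring
      have e2 : 2 ^ (l + 1 + 1) * z N = 2 * (2 ^ (l + 1) * z N) := by ring
      have e3 : N + (l + 1) = N + l + 1 := by ring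
      rw [e2, e1, e3]
      have e4 : (l + 1) * (2 * 2 ^ (N + l)) = 2 * (l * 2 ^ (N + l)) + 2 * 2 ^ (N + l) := by ring
      rw [e4]
      omega
  have h2 := key 33
  have h3 := hz N
  have e5 : 2 ^ (N + 33) = 2 ^ N * 2 ^ 33 := by ring
  rw [e5] at h2
  have h4 : 0 < 2 ^ N := by positivity
  norm_num at h2
  omega

/-- zero counting function of a digit sequence -/
def zc (d : ℕ → ℕ × ℕ) (N : ℕ) : ℕ := ∑ l ∈ Finset.range N, if (d l).1 = 0 then 1 else 0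

lemma zc_le (d : ℕ → ℕ × ℕ) (N : ℕ) : zc d N ≤ N := by
  unfold zc
  refine (Finset.sum_le_card_nsmul _ _ 1 ?_).trans (by simp)
  intro x _
  split_ifs <;> simp

lemma cover (m n N : ℕ) (hm : 0 < m) (hn : 0 < n) {p : ℝ × ℝ} (hp : p ∈ F m n (cross m n)) :
    ∃ i, N ≤ i ∧ ∃ x : Idx m n i, p ∈ cell m n i x := by
  obtain ⟨d, hd, hp1, hp2⟩ := hp
  obtain ⟨i, hi, hg⟩ := exists_good (fun i => zc d (16 * 2 ^ i)) (fun i => zc_le d _) N
  refine ⟨i, hi, ⟨fun l => ⟨d l, hd l⟩, fun l => ⟨(d (16 * 2 ^ i + l)).1, (cross_lt hm hn (hd _)).1⟩⟩,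
    ?_, d, hd, hp1, hp2, fun l => rfl, fun l => rfl⟩
  have e1 : 16 * 2 ^ (i + 1) = 16 * 2 ^ i + 16 * 2 ^ i := by ring
  rw [e1] at hg
  unfold Z Z'
  simp only
  rw [Fin.sum_univ_eq_sum_range (fun l => if (d l).1 = 0 then 1 else 0),
    Fin.sum_univ_eq_sum_range (fun l => if (d (16 * 2 ^ i + l)).1 = 0 then 1 else 0)]
  have e2 : zc d (16 * 2 ^ i + 16 * 2 ^ i) = zc d (16 * 2 ^ i) +
      ∑ l ∈ Finset.range (16 * 2 ^ i), if (d (16 * 2 ^ i + l)).1 = 0 then 1 else 0 := by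
    unfold zc
    rw [Finset.sum_range_add]
  rw [e2] at hg
  unfold zc at hg
  omega

lemma hB_aux (m : ℕ) (_hm : 2 ≤ m) :
    (∑ u : Fin m, if u.1 = 0 then (m : ℝ) else 1) ≤ 2 * m := by
  rw [Fin.sum_univ_eq_sum_range (fun u => if u = 0 then (m : ℝ) else 1)]
  have h1 : ∀ u ∈ Finset.range m, (if u = 0 then (m : ℝ) else 1) ≤ (if u = 0 then (m : ℝ) else 0) + 1 := by
    intro u _
    split_ifs <;> simp
  refine (Finset.sum_le_sum h1).trans ?_
  rw [Finset.sum_add_distrib, Finset.sum_ite_eq']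
  simp
  split_ifs <;> linarith

lemma hA_aux (m n : ℕ) (hm : 2 ≤ m) (hmn : n ≤ m ^ 2) :
    (∑ w : (cross m n : Finset (ℕ × ℕ)), if w.1.1 = 0 then (m : ℝ)⁻¹ else 1) ≤ 2 * m := by
  have hm' : (2 : ℝ) ≤ m := by exact_mod_cast hm
  have hmn' : (n : ℝ) ≤ (m : ℝ) ^ 2 := by exact_mod_cast hmn
  rw [Finset.sum_coe_sort (cross m n) (fun w => if w.1 = 0 then (m : ℝ)⁻¹ else 1)]
  have h1 : (∑ w ∈ cross m n, if w.1 = 0 then (m : ℝ)⁻¹ else 1) ≤
      (∑ w ∈ Finset.range m ×ˢ {0}, if w.1 = 0 then (m : ℝ)⁻¹ else 1) +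
      ∑ w ∈ ({0} : Finset ℕ) ×ˢ Finset.range n, if w.1 = 0 then (m : ℝ)⁻¹ else 1 := by
    rw [cross, ← Finset.sum_union_inter]
    have : 0 ≤ ∑ w ∈ (Finset.range m ×ˢ {0}) ∩ (({0} : Finset ℕ) ×ˢ Finset.range n), if w.1 = 0 then (m : ℝ)⁻¹ else 1 :=
      Finset.sum_nonneg (fun w _ => by positivity)
    linarith
  refine h1.trans ?_
  have h2 : (∑ w ∈ Finset.range m ×ˢ {0}, if w.1 = 0 then (m : ℝ)⁻¹ else 1) ≤ m := by
    rw [Finset.sum_product]
    simp only [Finset.sum_singleton]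
    refine (Finset.sum_le_card_nsmul _ _ 1 ?_).trans (by simp)
    intro x _
    split_ifs
    · exact inv_le_one_of_one_le₀ (by linarith)
    · exact le_rfl
  have h3 : (∑ w ∈ ({0} : Finset ℕ) ×ˢ Finset.range n, if w.1 = 0 then (m : ℝ)⁻¹ else 1) ≤ m := by
    rw [Finset.sum_product]
    simp only [Finset.sum_singleton, if_true, Finset.sum_const, Finset.card_range, nsmul_eq_mul]
    rw [← div_eq_mul_inv, div_le_iff₀ (by linarith)]
    nlinarith
  linarith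

/-- the weighted count -/
lemma weight_sum_le (m n i : ℕ) (hm : 2 ≤ m) (_hn : 2 ≤ n) (hmn : n ≤ m ^ 2) :
    (∑ x : Idx m n i, if Z x.1 ≤ Z' x.2 + 2 ^ i then (1 : ℝ) else 0)
      ≤ ((m : ℝ) * (2 * m) ^ 32) ^ (2 ^ i) := by
  have hm' : (2 : ℝ) ≤ m := by exact_mod_cast hm
  have hm0 : (0 : ℝ) < m := by linarith
  calc (∑ x : Idx m n i, if Z x.1 ≤ Z' x.2 + 2 ^ i then (1 : ℝ) else 0)
      ≤ ∑ x : Idx m n i, (m : ℝ) ^ (2 ^ i) * ((∏ l, if (x.1 l).1.1 = 0 then (m : ℝ)⁻¹ else 1) *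
          ∏ l, if (x.2 l).1 = 0 then (m : ℝ) else 1) := by
        apply Finset.sum_le_sum
        intro x _
        have h1 : (∏ l, if (x.1 l).1.1 = 0 then (m : ℝ)⁻¹ else 1) = ((m : ℝ)⁻¹) ^ (Z x.1) := by
          unfold Z
          rw [← Finset.prod_pow_eq_pow_sum]
          apply Finset.prod_congr rfl
          intro l _
          split_ifs <;> simp
        have h2 : (∏ l, if (x.2 l).1 = 0 then (m : ℝ) else 1) = (m : ℝ) ^ (Z' x.2) := by
          unfold Z'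
          rw [← Finset.prod_pow_eq_pow_sum]
          apply Finset.prod_congr rfl
          intro l _
          split_ifs <;> simp
        rw [h1, h2]
        split_ifs with h
        · have h3 : (m : ℝ) ^ (Z x.1) ≤ (m : ℝ) ^ (Z' x.2 + 2 ^ i) :=
            pow_le_pow_right₀ (by linarith) h
          have h4 : (0 : ℝ) < (m : ℝ) ^ (Z x.1) := by positivity
          calc (1 : ℝ) = ((m : ℝ) ^ (Z x.1))⁻¹ * (m : ℝ) ^ (Z x.1) := by field_simp
            _ ≤ ((m : ℝ) ^ (Z x.1))⁻¹ * (m : ℝ) ^ (Z' x.2 + 2 ^ i) := by gcongr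
            _ = _ := by rw [pow_add, inv_pow]; ring
        · positivity
    _ = (m : ℝ) ^ (2 ^ i) *
          ((∑ w : (Fin (16 * 2 ^ i) → (cross m n : Finset (ℕ × ℕ))),
            (∏ l, if (w l).1.1 = 0 then (m : ℝ)⁻¹ else 1)) *
          ∑ u : (Fin (16 * 2 ^ i) → Fin m), ∏ l, if (u l).1 = 0 then (m : ℝ) else 1) := by
        rw [← Finset.mul_sum, Fintype.sum_prod_type, Finset.sum_mul_sum]
    _ = (m : ℝ) ^ (2 ^ i) * ((∑ w : (cross m n : Finset (ℕ × ℕ)), if w.1.1 = 0 then (m : ℝ)⁻¹ else 1) ^ (16 * 2 ^ i) *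
          (∑ u : Fin m, if u.1 = 0 then (m : ℝ) else 1) ^ (16 * 2 ^ i)) := by
        rw [Fintype.sum_pow, Fintype.sum_pow]
    _ ≤ (m : ℝ) ^ (2 ^ i) * ((2 * m) ^ (16 * 2 ^ i) * (2 * m) ^ (16 * 2 ^ i)) := by
        have hA : (∑ w : (cross m n : Finset (ℕ × ℕ)), if w.1.1 = 0 then (m : ℝ)⁻¹ else 1) ≤ 2 * m := by
          exact hA_aux m n hm hmn
        have hB : (∑ u : Fin m, if u.1 = 0 then (m : ℝ) else 1) ≤ 2 * m := by
          exact hB_aux m hm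
        have hA0 : 0 ≤ (∑ w : (cross m n : Finset (ℕ × ℕ)), if w.1.1 = 0 then (m : ℝ)⁻¹ else 1) :=
          Finset.sum_nonneg (fun w _ => by positivity)
        have hB0 : 0 ≤ (∑ u : Fin m, if u.1 = 0 then (m : ℝ) else 1) :=
          Finset.sum_nonneg (fun w _ => by positivity)
        gcongr
    _ = _ := by
        rw [← pow_add, mul_pow _ _ (2 ^ i), ← pow_mul]
        congr 2
        ring

lemma delta_le (n i : ℕ) (hn : 2 ^ 127 ≤ n) :
    ((((n : ℝ) ^ (16 * 2 ^ i))⁻¹) ^ ((11 : ℝ) / 10)) ≤ ((2 : ℝ) ^ (2235 * 2 ^ i))⁻¹ := by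
  have hn' : (2 : ℝ) ^ 127 ≤ n := by exact_mod_cast hn
  have h1 : ((n : ℝ) ^ (16 * 2 ^ i))⁻¹ ≤ ((2 : ℝ) ^ (2032 * 2 ^ i))⁻¹ := by
    apply inv_anti₀ (by positivity)
    calc (2 : ℝ) ^ (2032 * 2 ^ i) = ((2 : ℝ) ^ 127) ^ (16 * 2 ^ i) := by
          rw [← pow_mul]; congr 1; ring
      _ ≤ _ := pow_le_pow_left₀ (by positivity) hn' _
  have h0 : (0 : ℝ) ≤ ((n : ℝ) ^ (16 * 2 ^ i))⁻¹ := by positivity
  refine (Real.rpow_le_rpow h0 h1 (by norm_num)).trans ?_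
  rw [← Real.rpow_natCast, ← Real.rpow_natCast, ← Real.rpow_neg (by norm_num),
    ← Real.rpow_neg (by norm_num), ← Real.rpow_mul (by norm_num)]
  apply Real.rpow_le_rpow_of_exponent_le (by norm_num)
  push_cast
  have : (0 : ℝ) ≤ 2 ^ i := by positivity
  nlinarith

lemma level_sum_le (m n i : ℕ) (hm : m = 2 ^ 64) (hn : 2 ^ 127 ≤ n) (hmn : n ≤ m ^ 2) :
    ∑ x : Idx m n i, (ediam (cell m n i x)) ^ ((11 : ℝ) / 10)
      ≤ ENNReal.ofReal (((1 : ℝ) / 4) ^ (i + 1)) := by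
  have hm2 : 2 ≤ m := by rw [hm]; norm_num
  have hn2 : 2 ≤ n := le_trans (by norm_num) hn
  have h1 : ∀ x : Idx m n i, (ediam (cell m n i x)) ^ ((11 : ℝ) / 10) ≤
      ENNReal.ofReal ((if Z x.1 ≤ Z' x.2 + 2 ^ i then (1 : ℝ) else 0) * ((2 : ℝ) ^ (2235 * 2 ^ i))⁻¹) := by
    intro x
    by_cases h : Z x.1 ≤ Z' x.2 + 2 ^ i
    · rw [if_pos h, one_mul]
      have h2 := ediam_cell_le (m := m) (n := n) (by omega) (by omega) hmn i x
      calc (ediam (cell m n i x)) ^ ((11 : ℝ) / 10)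
          ≤ (ENNReal.ofReal (((n : ℝ) ^ (16 * 2 ^ i))⁻¹)) ^ ((11 : ℝ) / 10) :=
            ENNReal.rpow_le_rpow h2 (by norm_num)
        _ = ENNReal.ofReal ((((n : ℝ) ^ (16 * 2 ^ i))⁻¹) ^ ((11 : ℝ) / 10)) := by
            rw [ENNReal.ofReal_rpow_of_nonneg (by positivity) (by norm_num)]
        _ ≤ _ := ENNReal.ofReal_le_ofReal (delta_le n i hn)
    · have : cell m n i x = ∅ := by
        ext p
        simp [cell, h]
      rw [this]
      simp
  refine (Finset.sum_le_sum (fun x _ => h1 x)).trans ?_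
  rw [← ENNReal.ofReal_sum_of_nonneg (fun x _ => by positivity), ← Finset.sum_mul]
  apply ENNReal.ofReal_le_ofReal
  have h3 := weight_sum_le m n i hm2 hn2 hmn
  have h4 : ((m : ℝ) * (2 * m) ^ 32) ^ (2 ^ i) = 2 ^ (2144 * 2 ^ i) := by
    have hm3 : (m : ℝ) = (2 : ℝ) ^ 64 := by rw [hm, Nat.cast_pow, Nat.cast_ofNat]
    rw [hm3, pow_mul (2 : ℝ) 2144, ← pow_succ' (2 : ℝ) 64, ← pow_mul (2 : ℝ) (64 + 1), ← pow_add]
  rw [h4] at h3
  calc (∑ x : Idx m n i, if Z x.1 ≤ Z' x.2 + 2 ^ i then (1 : ℝ) else 0) * ((2 : ℝ) ^ (2235 * 2 ^ i))⁻¹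
      ≤ (2 : ℝ) ^ (2144 * 2 ^ i) * ((2 : ℝ) ^ (2235 * 2 ^ i))⁻¹ := by gcongr
    _ ≤ ((1 : ℝ) / 4) ^ (i + 1) := by
      have h5 : 2 * (i + 1) ≤ 91 * 2 ^ i := by
        have := Nat.lt_two_pow_self (n := i)
        omega
      have h6 : (2 : ℝ) ^ (2235 * 2 ^ i) = 2 ^ (2144 * 2 ^ i) * 2 ^ (91 * 2 ^ i) := by
        rw [← pow_add]; congr 1; ring
      rw [h6, mul_inv, ← mul_assoc, mul_inv_cancel₀ (by positivity), one_mul, one_div, inv_pow]
      apply inv_anti₀ (by positivity)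
      have e4 : (4 : ℝ) = 2 ^ 2 := by norm_num
      rw [e4, ← pow_mul]
      exact pow_le_pow_right₀ (by norm_num) h5

lemma tail_sum (N : ℕ) :
    ∑' i : ℕ, (if N ≤ i then ENNReal.ofReal (((1 : ℝ) / 4) ^ (i + 1)) else 0) ≤
      ENNReal.ofReal (((1 : ℝ) / 2) ^ N) := by
  have h1 : ∀ i : ℕ, (if N ≤ i then ENNReal.ofReal (((1 : ℝ) / 4) ^ (i + 1)) else 0) ≤
      ENNReal.ofReal (((1 : ℝ) / 2) ^ N) * ENNReal.ofReal (((1 : ℝ) / 2) ^ (i + 1)) := by
    intro i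
    split_ifs with h
    · rw [← ENNReal.ofReal_mul (by positivity)]
      apply ENNReal.ofReal_le_ofReal
      have e1 : ((1 : ℝ) / 4) ^ (i + 1) = ((1 : ℝ) / 2) ^ (i + 1) * ((1 : ℝ) / 2) ^ (i + 1) := by
        rw [← mul_pow]; norm_num
      rw [e1]
      gcongr ?_ * _
      exact pow_le_pow_of_le_one (by norm_num) (by norm_num) (by omega)
    · exact bot_le
  refine (ENNReal.tsum_le_tsum h1).trans ?_
  rw [ENNReal.tsum_mul_left]
  have h3 : ∑' i : ℕ, ENNReal.ofReal (((1 : ℝ) / 2) ^ (i + 1)) = 1 := by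
    rw [← ENNReal.ofReal_tsum_of_nonneg (fun i => by positivity)]
    · simp_rw [pow_succ]
      rw [tsum_mul_right, tsum_geometric_of_lt_one (by norm_num) (by norm_num)]
      norm_num
    · simp_rw [pow_succ]
      exact (summable_geometric_of_lt_one (by norm_num) (by norm_num)).mul_right _
  rw [h3, mul_one]

theorem dimH_F_le_aux (m n : ℕ) (hm2 : 2 ≤ m) (hn2 : 2 ≤ n) (hmn : n ≤ m ^ 2)
    (hlev : ∀ i, ∑ x : Idx m n i, (ediam (cell m n i x)) ^ ((11 : ℝ) / 10)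
      ≤ ENNReal.ofReal (((1 : ℝ) / 4) ^ (i + 1))) :
    dimH (F m n (cross m n)) ≤ ((11 / 10 : ℝ≥0) : ℝ≥0∞) := by
  apply dimH_le_of_hausdorffMeasure_ne_top
  have key : μH[((11 / 10 : ℝ≥0) : ℝ)] (F m n (cross m n)) ≤ 0 := by
    have e : ((11 / 10 : ℝ≥0) : ℝ) = (11 : ℝ) / 10 := by norm_num
    rw [e]
    have h := MeasureTheory.Measure.hausdorffMeasure_le_liminf_tsum (β := ℕ)
      (ι := fun _ => Σ i : ℕ, Idx m n i) ((11 : ℝ) / 10) (F m n (cross m n)) (l := atTop)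
      (r := fun N => ENNReal.ofReal (((1 : ℝ) / 2) ^ N)) ?_
      (t := fun N x => if N ≤ x.1 then cell m n x.1 x.2 else ∅) ?_ ?_
    · refine h.trans ?_
      have h2 : ∀ N : ℕ, ∑' x : (Σ i : ℕ, Idx m n i),
          ediam (if N ≤ x.1 then cell m n x.1 x.2 else ∅) ^ ((11 : ℝ) / 10) ≤
          ENNReal.ofReal (((1 : ℝ) / 2) ^ N) := by
        intro N
        rw [ENNReal.tsum_sigma']
        calc ∑' (i : ℕ) (x : Idx m n i),
              ediam (if N ≤ i then cell m n i x else ∅) ^ ((11 : ℝ) / 10)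
            ≤ ∑' i : ℕ, (if N ≤ i then ENNReal.ofReal (((1 : ℝ) / 4) ^ (i + 1)) else 0) := by
              apply ENNReal.tsum_le_tsum
              intro i
              rw [tsum_fintype]
              split_ifs with h3
              · exact hlev i
              · simp
          _ ≤ _ := tail_sum N
      have h5 : Tendsto (fun N : ℕ => ENNReal.ofReal (((1 : ℝ) / 2) ^ N)) atTop (𝓝 0) := by
        rw [← ENNReal.ofReal_zero]
        apply ENNReal.tendsto_ofReal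
        exact tendsto_pow_atTop_nhds_zero_of_lt_one (by norm_num) (by norm_num)
      rw [← h5.liminf_eq]
      exact liminf_le_liminf (Eventually.of_forall h2)
    · rw [← ENNReal.ofReal_zero]
      apply ENNReal.tendsto_ofReal
      exact tendsto_pow_atTop_nhds_zero_of_lt_one (by norm_num) (by norm_num)
    · apply Eventually.of_forall
      rintro N ⟨i, x⟩
      simp only
      split_ifs with h3
      · refine (ediam_cell_le (m := m) (n := n) (by omega) (by omega) hmn i x).trans ?_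
        apply ENNReal.ofReal_le_ofReal
        rw [one_div, inv_pow]
        apply inv_anti₀ (by positivity)
        have hn2' : (2 : ℝ) ≤ n := by exact_mod_cast hn2
        calc (2 : ℝ) ^ N ≤ 2 ^ (16 * 2 ^ i) := by
              apply pow_le_pow_right₀ (by norm_num)
              have := Nat.lt_two_pow_self (n := i)
              omega
          _ ≤ _ := pow_le_pow_left₀ (by norm_num) hn2' _
      · simp
    · apply Eventually.of_forall
      intro N p hp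
      obtain ⟨i, hi, x, hx⟩ := cover m n N (by omega) (by omega) hp
      refine Set.mem_iUnion.mpr ⟨⟨i, x⟩, ?_⟩
      simp only
      rw [if_pos hi]
      exact hx
  intro h
  rw [h] at key
  simp at key

theorem dimH_F_le (m n : ℕ) (hm : m = 2 ^ 64) (hn : 2 ^ 127 ≤ n) (hmn : n ≤ m ^ 2) :
    dimH (F m n (cross m n)) ≤ ((11 / 10 : ℝ≥0) : ℝ≥0∞) :=
  dimH_F_le_aux m n (by rw [hm]; norm_num) (le_trans (by norm_num) hn) hmn
    (fun i => level_sum_le m n i hm hn hmn)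

end

end Pool.Agent.H86.Carpet
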