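import Mathlib
import Pool.Agent.H86.CarpetUpper

set_option autoImplicit false

open MeasureTheory Metric Filter Topology
open scoped ENNReal NNReal

namespace Pool.Agent.H86.Carpet

noncomputable section

/-- position of the `i`-th free base-4 digit -/
def Q (i : ℕ) : ℕ := (i + 16) + 3 * 4 ^ Nat.log 4 (i + 16)

lemma Q_strictMono : StrictMono Q := by
  intro i j hij
  unfold Q
  have h1 : 4 ^ Nat.log 4 (i + 16) ≤ 4 ^ Nat.log 4 (j + 16) :=
    Nat.pow_le_pow_right (by norm_num) (Nat.log_mono_right (by omega))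
  omega

lemma Q_le (i : ℕ) : Q i ≤ 4 * (i + 16) := by
  unfold Q
  have h1 : 4 ^ Nat.log 4 (i + 16) ≤ i + 16 := Nat.pow_log_le_self 4 (by omega)
  omega

open Classical in
/-- the base-4 digit sequence: digit `2 * b i` at position `Q i`, zero elsewhere -/
def A (b : ℕ → Fin 2) (q : ℕ) : Fin 4 :=
  if ∃ i, Q i = q ∧ b i = 1 then 2 else 0

lemma A_Q (b : ℕ → Fin 2) (i : ℕ) : A b (Q i) = if b i = 1 then 2 else 0 := by
  unfold A
  have : (∃ i', Q i' = Q i ∧ b i' = 1) ↔ b i = 1 := by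
    constructor
    · rintro ⟨i', h, h'⟩
      rwa [← Q_strictMono.injective h]
    · intro h
      exact ⟨i, rfl, h⟩
  simp only [this]

lemma A_zero (b : ℕ → Fin 2) (q : ℕ) (h : ∀ i, Q i ≠ q) : A b q = 0 := by
  unfold A
  rw [if_neg]
  rintro ⟨i, hi, -⟩
  exact h i hi

lemma A_eq (b : ℕ → Fin 2) (q : ℕ) : A b q = 0 ∨ A b q = 2 := by
  unfold A
  split_ifs
  · right; rfl
  · left; rfl

/-- The position `Q i` avoids the zero blocks -/
lemma Q_notMem (i l : ℕ) (_hl : 2 ≤ l) : ¬ (7 * 4 ^ l ≤ Q i ∧ Q i < 16 * 4 ^ l) := by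
  rintro ⟨h1, h2⟩
  unfold Q at h1 h2
  set j := Nat.log 4 (i + 16) with hj
  have h3 : 4 ^ j ≤ i + 16 := Nat.pow_log_le_self 4 (by omega)
  have h4 : i + 16 < 4 ^ (j + 1) := Nat.lt_pow_succ_log_self (by norm_num) _
  rw [pow_succ] at h4
  rcases lt_trichotomy j l with h | h | h
  · have : 4 ^ (j + 1) ≤ 4 ^ l := Nat.pow_le_pow_right (by norm_num) h
    rw [pow_succ] at this
    omega
  · subst h
    omega
  · have : 4 ^ (l + 1) ≤ 4 ^ j := Nat.pow_le_pow_right (by norm_num) h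
    rw [pow_succ] at this
    omega

lemma Q_ge (i : ℕ) : 64 ≤ Q i := by
  unfold Q
  have h0 : 2 ≤ Nat.log 4 (i + 16) := by
    exact Nat.le_log_of_pow_le (by norm_num) (by omega)
  have h1 : 4 ^ 2 ≤ 4 ^ Nat.log 4 (i + 16) := Nat.pow_le_pow_right (by norm_num) h0
  omega

lemma ofDigits_le_half (a : ℕ → Fin 4) (ha : ∀ q, a q = 0 ∨ a q = 2) :
    Real.ofDigits a ≤ 3 / 4 := by
  rw [Real.ofDigits_eq_sum_add_ofDigits a 1]
  have h1 := Real.ofDigits_le_one (fun i => a (i + 1))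
  simp only [Finset.sum_range_one, Real.ofDigitsTerm]
  rcases ha 0 with h | h
  · rw [h]
    norm_num
    linarith
  · rw [h]
    norm_num
    linarith

/-- the key separation estimate -/
lemma sep (a a' : ℕ → Fin 4) (ha : ∀ q, a q = 0 ∨ a q = 2) (ha' : ∀ q, a' q = 0 ∨ a' q = 2) (q : ℕ)
    (hq : a q ≠ a' q) (hlt : ∀ p < q, a p = a' p) :
    ((4 : ℝ) ^ (q + 1))⁻¹ ≤ |Real.ofDigits a - Real.ofDigits a'| := by
  rw [Real.ofDigits_eq_sum_add_ofDigits a (q + 1), Real.ofDigits_eq_sum_add_ofDigits a' (q + 1)]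
  rw [Finset.sum_range_succ, Finset.sum_range_succ]
  have h1 : ∑ i ∈ Finset.range q, Real.ofDigitsTerm a i = ∑ i ∈ Finset.range q, Real.ofDigitsTerm a' i := by
    apply Finset.sum_congr rfl
    intro p hp
    rw [Finset.mem_range] at hp
    simp [Real.ofDigitsTerm, hlt p hp]
  rw [h1]
  have h2 := Real.ofDigits_le_one (fun i => a (i + (q + 1)))
  have h3 := Real.ofDigits_nonneg (fun i => a (i + (q + 1)))
  have h4 := Real.ofDigits_le_one (fun i => a' (i + (q + 1)))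
  have h5 := Real.ofDigits_nonneg (fun i => a' (i + (q + 1)))
  set T := Real.ofDigits (fun i => a (i + (q + 1)))
  set T' := Real.ofDigits (fun i => a' (i + (q + 1)))
  set S := ∑ i ∈ Finset.range q, Real.ofDigitsTerm a' i
  set δ := ((4 : ℝ) ^ (q + 1))⁻¹ with hδ
  have hδ0 : 0 < δ := by positivity
  have e1 : Real.ofDigitsTerm a q = (a q : ℝ) * δ := by simp [Real.ofDigitsTerm, hδ]
  have e2 : Real.ofDigitsTerm a' q = (a' q : ℝ) * δ := by simp [Real.ofDigitsTerm, hδ]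
  have e3 : (((4 : ℕ) : ℝ) ^ (q + 1))⁻¹ = δ := by simp [hδ]
  rw [e1, e2, e3]
  rcases ha q with h | h <;> rcases ha' q with h' | h'
  · exact absurd (h.trans h'.symm) hq
  · rw [h, h']
    rw [abs_sub_comm]
    refine le_trans ?_ (le_abs_self _)
    norm_num
    nlinarith
  · rw [h, h']
    refine le_trans ?_ (le_abs_self _)
    norm_num
    nlinarith
  · exact absurd (h.trans h'.symm) hq

/-- the point -/
def X (b : ℕ → Fin 2) : ℝ := Real.ofDigits (A b)

/-- the parameter -/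
def Y (b : ℕ → Fin 2) : ℝ := Real.ofDigits b

lemma fin2_ne (x y : Fin 2) (h : x ≠ y) : (x = 1 ∧ y ≠ 1) ∨ (x ≠ 1 ∧ y = 1) := by
  revert x y; decide

lemma holder_aux (b b' : ℕ → Fin 2) :
    |Y b - Y b'| ≤ 2 ^ 17 * |X b - X b'| ^ ((1 : ℝ) / 8) := by
  by_cases hb : b = b'
  · subst hb
    simp
  · have hex : ∃ i, b i ≠ b' i := by
      by_contra hcon
      push Not at hcon
      exact hb (funext hcon)
    classical
    set i := Nat.find hex with hi
    have h1 : b i ≠ b' i := Nat.find_spec hex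
    have h2 : ∀ j < i, b j = b' j := fun j hj => by
      have := Nat.find_min hex hj
      push Not at this
      exact this
    have h3 : |Y b - Y b'| ≤ ((2 : ℝ) ^ i)⁻¹ := by
      have := Real.abs_ofDigits_sub_ofDigits_le h2
      simpa [Y] using this
    have h4 : ((4 : ℝ) ^ (Q i + 1))⁻¹ ≤ |X b - X b'| := by
      apply sep _ _ (A_eq b) (A_eq b')
      · rw [A_Q, A_Q]
        rcases fin2_ne _ _ h1 with ⟨h, h'⟩ | ⟨h, h'⟩
        · rw [if_pos h, if_neg h']; decide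
        · rw [if_neg h, if_pos h']; decide
      · intro p hp
        by_cases hpQ : ∃ j, Q j = p
        · obtain ⟨j, rfl⟩ := hpQ
          rw [A_Q, A_Q, h2 j (Q_strictMono.lt_iff_lt.mp hp)]
        · push Not at hpQ
          rw [A_zero b p hpQ, A_zero b' p hpQ]
    have h5 : ((2 : ℝ) ^ (8 * (i + 17)))⁻¹ ≤ ((4 : ℝ) ^ (Q i + 1))⁻¹ := by
      apply inv_anti₀ (by positivity)
      have e4 : (4 : ℝ) = 2 ^ 2 := by norm_num
      rw [e4, ← pow_mul]
      apply pow_le_pow_right₀ (by norm_num)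
      have := Q_le i
      omega
    have h6 : (((2 : ℝ) ^ (8 * (i + 17)))⁻¹) ^ ((1 : ℝ) / 8) = ((2 : ℝ) ^ (i + 17))⁻¹ := by
      rw [Real.inv_rpow (by positivity)]
      congr 1
      rw [mul_comm 8, pow_mul, ← Real.rpow_natCast _ 8, ← Real.rpow_mul (by positivity)]
      norm_num
    have h7 : ((2 : ℝ) ^ (i + 17))⁻¹ ≤ |X b - X b'| ^ ((1 : ℝ) / 8) := by
      rw [← h6]
      exact Real.rpow_le_rpow (by positivity) (h5.trans h4) (by norm_num)
    calc |Y b - Y b'| ≤ ((2 : ℝ) ^ i)⁻¹ := h3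
      _ = 2 ^ 17 * ((2 : ℝ) ^ (i + 17))⁻¹ := by
          rw [pow_add, mul_inv]
          field_simp
      _ ≤ _ := by gcongr

open Classical in
/-- the Hölder map -/
def psi (x : ℝ) : ℝ := if h : ∃ b, X b = x then Y h.choose else 0

lemma psi_X (b : ℕ → Fin 2) : psi (X b) = Y b := by
  have h : ∃ b', X b' = X b := ⟨b, rfl⟩
  unfold psi
  rw [dif_pos h]
  have h1 := holder_aux h.choose b
  rw [h.choose_spec] at h1
  simp at h1
  have h2 : |Y h.choose - Y b| ≤ 0 := by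
    simpa using h1
  have h3 := abs_nonpos_iff.mp h2
  linarith

lemma psi_holder : HolderOnWith (2 ^ 17) (1 / 8) psi (Set.range X) := by
  rintro _ ⟨b, rfl⟩ _ ⟨b', rfl⟩
  rw [psi_X, psi_X, edist_dist, edist_dist, Real.dist_eq, Real.dist_eq]
  have h := holder_aux b b'
  have e1 : ((1 / 8 : ℝ≥0) : ℝ) = (1 : ℝ) / 8 := by norm_num
  rw [e1, ENNReal.ofReal_rpow_of_nonneg (abs_nonneg _) (by norm_num)]
  have e2 : (((2 ^ 17 : ℝ≥0)) : ℝ≥0∞) = ENNReal.ofReal (2 ^ 17) := by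
    rw [ENNReal.ofReal_pow (by norm_num)]
    simp
  rw [e2, ← ENNReal.ofReal_mul (by positivity)]
  exact ENNReal.ofReal_le_ofReal h

lemma dimH_range_X : ((1 / 8 : ℝ≥0) : ℝ≥0∞) ≤ dimH (Set.range X) := by
  have h1 := psi_holder.dimH_image_le (by norm_num)
  have h2 : Set.Icc (0 : ℝ) 1 ⊆ psi '' (Set.range X) := by
    intro y hy
    obtain ⟨b, -, hb⟩ := Real.ofDigits_SurjOn (b := 2) (by norm_num) hy
    exact ⟨X b, ⟨b, rfl⟩, by rw [psi_X]; exact hb⟩
  have h3 : dimH (Set.Icc (0 : ℝ) 1) = 1 := by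
    rw [Real.dimH_of_nonempty_interior]
    · simp
    · rw [interior_Icc]
      exact ⟨1 / 2, by norm_num, by norm_num⟩
  have h4 := dimH_mono h2
  rw [h3] at h4
  have h5 := h4.trans h1
  rw [ENNReal.le_div_iff_mul_le (by left; norm_num) (by left; norm_num)] at h5
  simpa using h5

lemma digit_zero (b t G C : ℕ) [NeZero b] (x ε : ℝ) (hG : 0 < G) (hdvd : G ∣ b ^ t)
    (hx : x = C / G + ε) (hε0 : 0 ≤ ε) (hε : ε * (b : ℝ) ^ (t + 1) < 1) :
    Real.digits x b t = 0 := by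
  obtain ⟨K, hK⟩ := hdvd
  have hG' : (G : ℝ) ≠ 0 := by exact_mod_cast hG.ne'
  have hK' : (b : ℝ) ^ t = G * K := by exact_mod_cast hK
  have h1 : x * (b : ℝ) ^ (t + 1) = ((b * (C * K) : ℕ) : ℝ) + ε * (b : ℝ) ^ (t + 1) := by
    rw [hx]
    push_cast
    rw [pow_succ, hK']
    field_simp
  have h2 : ⌊x * (b : ℝ) ^ (t + 1)⌋₊ = b * (C * K) := by
    rw [h1, Nat.floor_eq_iff (by positivity)]
    constructor
    · have : 0 ≤ ε * (b : ℝ) ^ (t + 1) := by positivity
      linarith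
    · linarith
  unfold Real.digits
  rw [h2]
  ext
  simp

lemma sum_eq_nat_div (a : ℕ → Fin 4) (N : ℕ) :
    ∃ C : ℕ, ∑ q ∈ Finset.range N, Real.ofDigitsTerm a q = (C : ℝ) / (4 : ℝ) ^ N := by
  induction N with
  | zero => exact ⟨0, by simp⟩
  | succ N ih =>
    obtain ⟨C, hC⟩ := ih
    refine ⟨4 * C + a N, ?_⟩
    rw [Finset.sum_range_succ, hC]
    simp only [Real.ofDigitsTerm]
    push_cast
    rw [pow_succ]
    field_simp

lemma X_block (b : ℕ → Fin 2) (l : ℕ) (hl : 2 ≤ l) :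
    ∃ C : ℕ, ∃ ε : ℝ, X b = C / ((4 ^ (7 * 4 ^ l) : ℕ) : ℝ) + ε ∧ 0 ≤ ε ∧
      ε ≤ 3 / 4 * ((4 : ℝ) ^ (16 * 4 ^ l))⁻¹ := by
  obtain ⟨C, hC⟩ := sum_eq_nat_div (A b) (7 * 4 ^ l)
  refine ⟨C, ((4 : ℝ) ^ (16 * 4 ^ l))⁻¹ * Real.ofDigits (fun i => A b (i + 16 * 4 ^ l)), ?_, ?_, ?_⟩
  · unfold X
    rw [Real.ofDigits_eq_sum_add_ofDigits (A b) (16 * 4 ^ l)]
    push_cast
    rw [← hC]
    congr 1
    symm
    apply Finset.sum_subset
    · intro q hq
      rw [Finset.mem_range] at hq ⊢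
      omega
    · intro q hq hq'
      rw [Finset.mem_range] at hq hq'
      have : A b q = 0 := by
        apply A_zero
        intro i hi
        exact Q_notMem i l hl (by omega)
      simp [Real.ofDigitsTerm, this]
  · have := Real.ofDigits_nonneg (fun i => A b (i + 16 * 4 ^ l))
    positivity
  · rw [mul_comm]
    gcongr
    exact ofDigits_le_half _ (fun q => A_eq b _)

lemma X_small (b : ℕ → Fin 2) : X b ≤ 3 / 4 * ((4 : ℝ) ^ 64)⁻¹ := by
  unfold X
  rw [Real.ofDigits_eq_sum_add_ofDigits (A b) 64]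
  have h1 : ∑ i ∈ Finset.range 64, Real.ofDigitsTerm (A b) i = 0 := by
    apply Finset.sum_eq_zero
    intro q hq
    rw [Finset.mem_range] at hq
    have : A b q = 0 := by
      apply A_zero
      intro i hi
      have := Q_ge i
      omega
    simp [Real.ofDigitsTerm, this]
  rw [h1, zero_add, mul_comm]
  push_cast
  gcongr
  exact ofDigits_le_half _ (fun q => A_eq b _)

lemma X_nonneg (b : ℕ → Fin 2) : 0 ≤ X b := Real.ofDigits_nonneg _

lemma X_lt_one (b : ℕ → Fin 2) : X b < 1 := by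
  refine (X_small b).trans_lt ?_
  norm_num

lemma digits_cross (b : ℕ → Fin 2) (m n : ℕ) [NeZero m] [NeZero n] (hm : m = 2 ^ 64)
    (hn : n = 3 * 2 ^ 126) (t : ℕ) : Real.digits (X b) m t = 0 ∨ Real.digits (X b) n t = 0 := by
  have hmR : (m : ℝ) = 2 ^ 64 := by rw [hm, Nat.cast_pow, Nat.cast_ofNat]
  have hnR : (n : ℝ) = 3 * 2 ^ 126 := by
    rw [hn, Nat.cast_mul, Nat.cast_pow, Nat.cast_ofNat, Nat.cast_ofNat]
  by_cases ht : t < 2
  · left
    apply digit_zero m t 1 0 (X b) (X b) (by norm_num) (one_dvd _) (by simp) (X_nonneg b)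
    rw [hmR]
    have h1 := X_small b
    have h0 := X_nonneg b
    have h2 : ((2 : ℝ) ^ 64) ^ (t + 1) ≤ (2 ^ 64) ^ 2 :=
      pow_le_pow_right₀ (by norm_num) (by omega)
    calc X b * ((2 : ℝ) ^ 64) ^ (t + 1) ≤ (3 / 4 * ((4 : ℝ) ^ 64)⁻¹) * (2 ^ 64) ^ 2 := by gcongr
      _ < 1 := by norm_num
  · push Not at ht
    set i := Nat.log 4 (2 * t) with hi
    have h1 : 4 ^ i ≤ 2 * t := Nat.pow_log_le_self 4 (by omega)
    have h2 : 2 * t < 4 ^ (i + 1) := Nat.lt_pow_succ_log_self (by norm_num) _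
    have h3 : 1 ≤ i := Nat.le_log_of_pow_le (by norm_num) (by omega)
    rw [pow_succ] at h2
    obtain ⟨C, ε, hX, hε0, hε⟩ := X_block b (i + 1) (by omega)
    have h7 : 7 * 4 ^ (i + 1) = 28 * 4 ^ i := by ring
    have h16 : 16 * 4 ^ (i + 1) = 64 * 4 ^ i := by ring
    rw [h7] at hX
    rw [h16] at hε
    have e28 : (4 : ℕ) ^ (28 * 4 ^ i) = 2 ^ (56 * 4 ^ i) := by
      rw [show (4 : ℕ) = 2 ^ 2 by norm_num, ← pow_mul]
      congr 1
      ring
    have e64 : (4 : ℝ) ^ (64 * 4 ^ i) = 2 ^ (128 * 4 ^ i) := by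
      rw [show (4 : ℝ) = 2 ^ 2 by norm_num, ← pow_mul]
      congr 1
      ring
    rw [e64] at hε
    by_cases ht2 : 4 ^ i ≤ t
    · left
      apply digit_zero m t (4 ^ (28 * 4 ^ i)) C (X b) ε (by positivity) ?_ hX hε0
      · rw [hmR]
        have h4 : ((2 : ℝ) ^ 64) ^ (t + 1) ≤ 2 ^ (128 * 4 ^ i) := by
          rw [← pow_mul]
          exact pow_le_pow_right₀ (by norm_num) (by omega)
        calc ε * ((2 : ℝ) ^ 64) ^ (t + 1) ≤ (3 / 4 * ((2 : ℝ) ^ (128 * 4 ^ i))⁻¹) * 2 ^ (128 * 4 ^ i) := by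
              gcongr
          _ = 3 / 4 := by field_simp
          _ < 1 := by norm_num
      · rw [hm, e28, ← pow_mul]
        exact pow_dvd_pow 2 (by omega)
    · push Not at ht2
      right
      apply digit_zero n t (4 ^ (28 * 4 ^ i)) C (X b) ε (by positivity) ?_ hX hε0
      · have h4 : (n : ℝ) ^ (t + 1) ≤ 2 ^ (128 * 4 ^ i) := by
          calc (n : ℝ) ^ (t + 1) ≤ ((2 : ℝ) ^ 128) ^ (t + 1) := by
                apply pow_le_pow_left₀ (by positivity)
                rw [hnR]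
                norm_num
            _ ≤ _ := by
                rw [← pow_mul]
                exact pow_le_pow_right₀ (by norm_num) (by omega)
        calc ε * (n : ℝ) ^ (t + 1) ≤ (3 / 4 * ((2 : ℝ) ^ (128 * 4 ^ i))⁻¹) * 2 ^ (128 * 4 ^ i) := by
              gcongr
          _ = 3 / 4 := by field_simp
          _ < 1 := by norm_num
      · rw [hn, e28, mul_pow, ← pow_mul]
        exact Dvd.dvd.mul_left (pow_dvd_pow 2 (by omega)) _

lemma diag_mem (b : ℕ → Fin 2) (m n : ℕ) (hm : m = 2 ^ 64)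
    (hn : n = 3 * 2 ^ 126) : (X b, X b) ∈ F m n (cross m n) := by
  have hm1 : 1 < m := by rw [hm]; norm_num
  have hn1 : 1 < n := by rw [hn]; norm_num
  have : NeZero m := ⟨by omega⟩
  have : NeZero n := ⟨by omega⟩
  have hX : X b ∈ Set.Ico (0 : ℝ) 1 := ⟨X_nonneg b, X_lt_one b⟩
  refine ⟨fun k => ((Real.digits (X b) m k : ℕ), (Real.digits (X b) n k : ℕ)), ?_, ?_, ?_⟩
  · intro k
    rw [mem_cross]
    rcases digits_cross b m n hm hn k with h | h
    · right
      exact ⟨by simp [h], (Real.digits (X b) n k).2⟩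
    · left
      exact ⟨(Real.digits (X b) m k).2, by simp [h]⟩
  · have h := Real.ofDigits_digits (b := m) hm1 hX
    simp only [Real.ofDigits, Real.ofDigitsTerm] at h
    simp only [div_eq_mul_inv]
    exact h.symm
  · have h := Real.ofDigits_digits (b := n) hn1 hX
    simp only [Real.ofDigits, Real.ofDigitsTerm] at h
    simp only [div_eq_mul_inv]
    exact h.symm

lemma dimH_slice (m n : ℕ) (hm : m = 2 ^ 64) (hn : n = 3 * 2 ^ 126) :
    ((1 / 8 : ℝ≥0) : ℝ≥0∞) ≤ dimH (F m n (cross m n) ∩ {p : ℝ × ℝ | p.2 = 1 * p.1 + 0}) := by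
  have hiso : Isometry (fun x : ℝ => (x, x)) := by
    intro x y
    simp [Prod.edist_eq]
  have h1 := hiso.dimH_image (Set.range X)
  refine (dimH_range_X.trans (le_of_eq h1.symm)).trans (dimH_mono ?_)
  rintro _ ⟨_, ⟨b, rfl⟩, rfl⟩
  refine ⟨diag_mem b m n hm hn, ?_⟩
  simp

lemma irr (m n : ℕ) (hm : m = 2 ^ 64) (hn : n = 3 * 2 ^ 126) :
    Irrational (Real.log (m : ℝ) / Real.log (n : ℝ)) := by
  have hm1 : 1 < m := by rw [hm]; norm_num
  have hn1 : 1 < n := by rw [hn]; norm_num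
  have hlm : 0 < Real.log (m : ℝ) := Real.log_pos (by exact_mod_cast hm1)
  have hln : 0 < Real.log (n : ℝ) := Real.log_pos (by exact_mod_cast hn1)
  rintro ⟨q, hq⟩
  have hq0 : 0 < q := by
    have : (0 : ℝ) < q := by rw [hq]; positivity
    exact_mod_cast this
  have hnum : 0 < q.num := Rat.num_pos.mpr hq0
  obtain ⟨p, hp⟩ := Int.eq_ofNat_of_zero_le hnum.le
  have hp0 : 0 < p := by
    have : (0 : ℤ) < (p : ℤ) := by rw [← hp]; exact hnum
    exact_mod_cast this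
  have hqR : (q : ℝ) = (p : ℝ) / (q.den : ℝ) := by
    have h1 : (q : ℝ) = (q.num : ℝ) / (q.den : ℝ) := by exact_mod_cast (Rat.num_div_den q).symm
    rw [h1, hp]
    simp
  have hden : (0 : ℝ) < q.den := by exact_mod_cast q.den_pos
  rw [hqR, div_eq_div_iff hden.ne' hln.ne'] at hq
  have h2 : Real.log ((n : ℝ) ^ p) = Real.log ((m : ℝ) ^ q.den) := by
    rw [Real.log_pow, Real.log_pow]
    linarith
  have h3 : (n : ℝ) ^ p = (m : ℝ) ^ q.den := by
    have := congrArg Real.exp h2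
    rwa [Real.exp_log (by positivity), Real.exp_log (by positivity)] at this
  have h4 : n ^ p = m ^ q.den := by exact_mod_cast h3
  have h5 : 3 ∣ m ^ q.den := by
    rw [← h4]
    exact dvd_pow (by rw [hn]; exact dvd_mul_right _ _) hp0.ne'
  have h6 : 3 ∣ m := Nat.Prime.dvd_of_dvd_pow Nat.prime_three h5
  rw [hm] at h6
  have h7 : 3 ∣ 2 := Nat.Prime.dvd_of_dvd_pow Nat.prime_three h6
  omega

/-- The slice of the cross carpet by the diagonal is too large. -/
theorem slice_gt (m n : ℕ) (hm : m = 2 ^ 64) (hn : n = 3 * 2 ^ 126) :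
    dimH (F m n (cross m n)) - 1 < dimH (F m n (cross m n) ∩ {p : ℝ × ℝ | p.2 = 1 * p.1 + 0}) := by
  have h1 := dimH_slice m n hm hn
  have h2 := dimH_F_le m n hm (by rw [hn]; norm_num) (by rw [hm, hn]; norm_num)
  have h3 : dimH (F m n (cross m n)) - 1 ≤ ((1 / 10 : ℝ≥0) : ℝ≥0∞) := by
    rw [tsub_le_iff_right]
    refine h2.trans (le_of_eq ?_)
    have : ((1 : ℝ≥0) : ℝ≥0∞) = 1 := rfl
    rw [← this, ← ENNReal.coe_add]
    congr 1
    rw [← NNReal.coe_inj]
    push_cast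
    norm_num
  refine lt_of_le_of_lt h3 (lt_of_lt_of_le ?_ h1)
  rw [ENNReal.coe_lt_coe, ← NNReal.coe_lt_coe]
  push_cast
  norm_num

end

end Pool.Agent.H86.Carpet
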