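import Mathlib
import Pool.Agent.H86.CarpetLower

set_option autoImplicit false

open MeasureTheory Metric Filter Topology
open scoped ENNReal NNReal

namespace Pool.Agent.H86.Carpet

noncomputable section

/-- The Euclidean plane. -/
abbrev Plane := EuclideanSpace ℝ (Fin 2)

/-- The contraction `S_(i,j)(x,y) = ((x+i)/m, (y+j)/n)`, for `d = (i,j)`. -/
def contraction (m n : ℕ) (d : ℕ × ℕ) (p : Plane) : Plane :=
  !₂[(p 0 + d.1) / m, (p 1 + d.2) / n]

/-- `F` is the Bedford-McMullen carpet `F(m,n,D)`: a nonempty compact subset of the closed unit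
square which is the union of its images under the contractions `S_d`, `d` in `D`. -/
structure IsCarpet (m n : ℕ) (D : Finset (ℕ × ℕ)) (F : Set Plane) : Prop where
  isCompact : IsCompact F
  nonempty : F.Nonempty
  subset_square : ∀ p ∈ F, (0 ≤ p 0 ∧ p 0 ≤ 1) ∧ (0 ≤ p 1 ∧ p 1 ≤ 1)
  eq_union : F = ⋃ d ∈ D, contraction m n d '' F

/-- The line through the point `p` with direction vector `v`. -/
def line (p v : Plane) : Set Plane := {q | ∃ t : ℝ, q = p + t • v}

lemma tsum_of_steps (m : ℕ) (hm : 2 ≤ m) (d : ℕ → ℕ) (x : ℕ → ℝ) (hx : ∀ k, 0 ≤ x k ∧ x k ≤ 1)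
    (hstep : ∀ k, x k = (x (k + 1) + d k) / m) :
    x 0 = ∑' k, (d k : ℝ) / (m : ℝ) ^ (k + 1) := by
  have hm0 : (0 : ℝ) < m := by positivity
  have h1 : ∀ N, x 0 = ∑ k ∈ Finset.range N, (d k : ℝ) / (m : ℝ) ^ (k + 1) + x N / (m : ℝ) ^ N := by
    intro N
    induction N with
    | zero => simp
    | succ N ih =>
      rw [ih, Finset.sum_range_succ, hstep N, pow_succ]
      field_simp
      ring
  have h2 : HasSum (fun k => (d k : ℝ) / (m : ℝ) ^ (k + 1)) (x 0) := by
    rw [hasSum_iff_tendsto_nat_of_nonneg (fun i => by positivity)]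
    have h3 : Tendsto (fun N => x 0 - x N / (m : ℝ) ^ N) atTop (𝓝 (x 0 - 0)) := by
      apply Tendsto.sub tendsto_const_nhds
      have h4 : Tendsto (fun N : ℕ => ((1 : ℝ) / m) ^ N) atTop (𝓝 0) := by
        apply tendsto_pow_atTop_nhds_zero_of_lt_one (by positivity)
        rw [div_lt_one hm0]
        exact_mod_cast (by omega : 1 < m)
      apply squeeze_zero (fun N => by have := (hx N).1; positivity) (fun N => ?_) h4
      rw [one_div, inv_pow, div_eq_mul_inv]
      have := (hx N).2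
      have h5 : (0 : ℝ) ≤ ((m : ℝ) ^ N)⁻¹ := by positivity
      nlinarith
    rw [sub_zero] at h3
    refine h3.congr (fun N => ?_)
    have := h1 N
    linarith
  exact h2.tsum_eq.symm

/-- A bounded set covered by its images lies in the set of points with digits in `D`. -/
lemma subset_digits {m n : ℕ} (hm : 2 ≤ m) (hn : 2 ≤ n) {D : Finset (ℕ × ℕ)} {G : Set Plane}
    (hsq : ∀ p ∈ G, (0 ≤ p 0 ∧ p 0 ≤ 1) ∧ (0 ≤ p 1 ∧ p 1 ≤ 1))
    (hG : G ⊆ ⋃ d ∈ D, contraction m n d '' G) :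
    ∀ p ∈ G, (p 0, p 1) ∈ F m n D := by
  have h1 : ∀ p : G, ∃ d : ℕ × ℕ, d ∈ D ∧ ∃ q : G, contraction m n d q = p := by
    rintro ⟨p, hp⟩
    have := hG hp
    simp only [Set.mem_iUnion, Set.mem_image] at this
    obtain ⟨d, hd, q, hq, h⟩ := this
    exact ⟨d, hd, ⟨q, hq⟩, h⟩
  choose dg hdg nx hnx using h1
  intro p hp
  set P : ℕ → G := fun k => (nx^[k]) ⟨p, hp⟩ with hP
  have hP1 : ∀ k, P (k + 1) = nx (P k) := by
    intro k
    simp only [hP]
    exact Function.iterate_succ_apply' nx k _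
  have hP2 : ∀ k, contraction m n (dg (P k)) (P (k + 1)) = (P k : Plane) := by
    intro k
    rw [hP1]
    exact hnx (P k)
  refine ⟨fun k => dg (P k), fun k => hdg _, ?_, ?_⟩
  · refine tsum_of_steps m hm (fun k => (dg (P k)).1) (fun k => (P k : Plane) 0)
      (fun k => (hsq _ (P k).2).1) (fun k => ?_)
    have h := congrArg (fun q : Plane => q 0) (hP2 k)
    simp [contraction] at h
    simp [h]
  · refine tsum_of_steps n hn (fun k => (dg (P k)).2) (fun k => (P k : Plane) 1)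
      (fun k => (hsq _ (P k).2).2) (fun k => ?_)
    have h := congrArg (fun q : Plane => q 1) (hP2 k)
    simp [contraction] at h
    simp [h]

/-- The coordinate map. -/
def coord : Plane ≃L[ℝ] ℝ × ℝ :=
  (EuclideanSpace.equiv (Fin 2) ℝ).trans (ContinuousLinearEquiv.finTwoArrow ℝ ℝ)

lemma coord_apply (p : Plane) : coord p = (p 0, p 1) := rfl

lemma coord_symm_apply (x y : ℝ) : coord.symm (x, y) = !₂[x, y] := by
  apply coord.injective
  rw [ContinuousLinearEquiv.apply_symm_apply, coord_apply]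
  simp

lemma step_aux {m : ℕ} (hm : (m : ℝ) ≠ 0) (S : ℝ) (d : ℕ) (x : ℝ) (N : ℕ) :
    S + (d : ℝ) / (m : ℝ) ^ (N + 1) + x / (m : ℝ) ^ (N + 1) = S + ((x + d) / m) / (m : ℝ) ^ N := by
  rw [pow_succ]
  field_simp
  ring

/-- iterating contractions -/
lemma iter_mem {m n : ℕ} (hm : 0 < m) (hn : 0 < n) {D : Finset (ℕ × ℕ)} {G : Set Plane}
    (hG : ∀ e ∈ D, ∀ q ∈ G, contraction m n e q ∈ G) (d : ℕ → ℕ × ℕ) (hd : ∀ k, d k ∈ D) :
    ∀ N : ℕ, ∀ q ∈ G, (!₂[∑ k ∈ Finset.range N, ((d k).1 : ℝ) / (m : ℝ) ^ (k + 1) + q 0 / (m : ℝ) ^ N,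
      ∑ k ∈ Finset.range N, ((d k).2 : ℝ) / (n : ℝ) ^ (k + 1) + q 1 / (n : ℝ) ^ N] : Plane) ∈ G := by
  have hm0 : (0 : ℝ) < m := by positivity
  have hn0 : (0 : ℝ) < n := by positivity
  intro N
  induction N with
  | zero =>
    intro q hq
    have : (!₂[∑ k ∈ Finset.range 0, ((d k).1 : ℝ) / (m : ℝ) ^ (k + 1) + q 0 / (m : ℝ) ^ 0,
      ∑ k ∈ Finset.range 0, ((d k).2 : ℝ) / (n : ℝ) ^ (k + 1) + q 1 / (n : ℝ) ^ 0] : Plane) = q := by
      ext i
      fin_cases i <;> simp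
    rw [this]
    exact hq
  | succ N ih =>
    intro q hq
    have h1 := ih (contraction m n (d N) q) (hG _ (hd N) q hq)
    have h2 : (!₂[∑ k ∈ Finset.range (N + 1), ((d k).1 : ℝ) / (m : ℝ) ^ (k + 1) + q 0 / (m : ℝ) ^ (N + 1),
      ∑ k ∈ Finset.range (N + 1), ((d k).2 : ℝ) / (n : ℝ) ^ (k + 1) + q 1 / (n : ℝ) ^ (N + 1)] : Plane) =
      !₂[∑ k ∈ Finset.range N, ((d k).1 : ℝ) / (m : ℝ) ^ (k + 1) +
          (contraction m n (d N) q) 0 / (m : ℝ) ^ N,
        ∑ k ∈ Finset.range N, ((d k).2 : ℝ) / (n : ℝ) ^ (k + 1) +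
          (contraction m n (d N) q) 1 / (n : ℝ) ^ N] := by
      have e1 := step_aux (m := m) hm0.ne'
        (∑ k ∈ Finset.range N, ((d k).1 : ℝ) / (m : ℝ) ^ (k + 1)) (d N).1 (q 0) N
      have e2 := step_aux (m := n) hn0.ne'
        (∑ k ∈ Finset.range N, ((d k).2 : ℝ) / (n : ℝ) ^ (k + 1)) (d N).2 (q 1) N
      rw [Finset.sum_range_succ, Finset.sum_range_succ, e1, e2]
      simp [contraction]
    rw [h2]
    exact h1

lemma summable_digits {m : ℕ} (d : ℕ → ℕ) (hd : ∀ k, d k < m) :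
    Summable (fun k => (d k : ℝ) / (m : ℝ) ^ (k + 1)) := by
  have h := Real.summable_ofDigitsTerm (digits := fun k => (⟨d k, hd k⟩ : Fin m))
  refine h.congr (fun k => ?_)
  simp [Real.ofDigitsTerm, div_eq_mul_inv]

lemma tendsto_partial {m : ℕ} (hm : 2 ≤ m) (d : ℕ → ℕ) (hd : ∀ k, d k < m) (x : ℝ) :
    Tendsto (fun N : ℕ => ∑ k ∈ Finset.range N, (d k : ℝ) / (m : ℝ) ^ (k + 1) + x / (m : ℝ) ^ N) atTop
      (𝓝 (∑' k, (d k : ℝ) / (m : ℝ) ^ (k + 1))) := by
  have h1 := (summable_digits d hd).hasSum.tendsto_sum_nat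
  have h4 : Tendsto (fun N : ℕ => ((1 : ℝ) / m) ^ N) atTop (𝓝 0) := by
    apply tendsto_pow_atTop_nhds_zero_of_lt_one (by positivity)
    rw [div_lt_one (by positivity)]
    exact_mod_cast (by omega : 1 < m)
  have h5 := h1.add (h4.const_mul x)
  rw [mul_zero, add_zero] at h5
  refine h5.congr (fun N => ?_)
  rw [one_div, inv_pow, div_eq_mul_inv x]

/-- A nonempty closed set containing its images contains all points with digits in `D`. -/
lemma digits_subset {m n : ℕ} (hm : 2 ≤ m) (hn : 2 ≤ n) {D : Finset (ℕ × ℕ)}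
    (hD : ∀ d ∈ D, d.1 < m ∧ d.2 < n) {G : Set Plane} (hcl : IsClosed G) (hne : G.Nonempty)
    (hG : ∀ e ∈ D, ∀ q ∈ G, contraction m n e q ∈ G) :
    ∀ p : Plane, (p 0, p 1) ∈ F m n D → p ∈ G := by
  rintro p ⟨d, hd, h0, h1⟩
  obtain ⟨q, hq⟩ := hne
  have h2 := tendsto_partial hm (fun k => (d k).1) (fun k => (hD _ (hd k)).1) (q 0)
  have h3 := tendsto_partial hn (fun k => (d k).2) (fun k => (hD _ (hd k)).2) (q 1)
  simp only at h0 h1
  rw [← h0] at h2
  rw [← h1] at h3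
  have h4 := (coord.symm.continuous.tendsto (p 0, p 1)).comp (h2.prodMk_nhds h3)
  have h5 : coord.symm (p 0, p 1) = p := by
    rw [← coord_apply, ContinuousLinearEquiv.symm_apply_apply]
  rw [h5] at h4
  refine hcl.mem_of_tendsto h4 (Eventually.of_forall (fun N => ?_))
  simp only [Function.comp_apply, coord_symm_apply]
  exact iter_mem (by omega) (by omega) hG d hd N q hq

/-- the digit set is compact -/
lemma isCompact_F {m n : ℕ} {D : Finset (ℕ × ℕ)} (hD : ∀ d ∈ D, d.1 < m ∧ d.2 < n) :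
    IsCompact (F m n D) := by
  set g : (ℕ → D) → ℝ × ℝ := fun d =>
    (Real.ofDigits (fun k => (⟨(d k).1.1, (hD _ (d k).2).1⟩ : Fin m)),
      Real.ofDigits (fun k => (⟨(d k).1.2, (hD _ (d k).2).2⟩ : Fin n))) with hg
  have hcont : Continuous g := by
    apply Continuous.prodMk
    · apply Real.continuous_ofDigits.comp
      apply continuous_pi
      intro k
      exact (continuous_of_discreteTopology
        (f := fun e : D => (⟨e.1.1, (hD _ e.2).1⟩ : Fin m))).comp (continuous_apply k)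
    · apply Real.continuous_ofDigits.comp
      apply continuous_pi
      intro k
      exact (continuous_of_discreteTopology
        (f := fun e : D => (⟨e.1.2, (hD _ e.2).2⟩ : Fin n))).comp (continuous_apply k)
  have h1 : F m n D = Set.range g := by
    ext p
    constructor
    · rintro ⟨d, hd, h0, h1⟩
      refine ⟨fun k => ⟨d k, hd k⟩, ?_⟩
      rw [hg]
      simp only
      rw [← tsum_eq_ofDigits m (fun k => (d k).1) (fun k => (hD _ (hd k)).1),
        ← tsum_eq_ofDigits n (fun k => (d k).2) (fun k => (hD _ (hd k)).2), ← h0, ← h1]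
    · rintro ⟨d, rfl⟩
      refine ⟨fun k => (d k).1, fun k => (d k).2, ?_, ?_⟩
      · rw [tsum_eq_ofDigits m (fun k => (d k).1.1) (fun k => (hD _ (d k).2).1)]
      · rw [tsum_eq_ofDigits n (fun k => (d k).1.2) (fun k => (hD _ (d k).2).2)]
  rw [h1]
  exact isCompact_range hcont

/-- the digit set as a subset of the Euclidean plane -/
def FE (m n : ℕ) (D : Finset (ℕ × ℕ)) : Set Plane := {p | (p 0, p 1) ∈ F m n D}

lemma FE_eq_preimage (m n : ℕ) (D : Finset (ℕ × ℕ)) : FE m n D = coord ⁻¹' F m n D := rfl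

lemma tsum_succ {m : ℕ} (hm : 0 < m) (d : ℕ → ℕ) (hd : ∀ k, d k < m) :
    ∑' k, (d k : ℝ) / (m : ℝ) ^ (k + 1) =
      ((∑' k, (d (k + 1) : ℝ) / (m : ℝ) ^ (k + 1)) + d 0) / m := by
  have hm0 : (m : ℝ) ≠ 0 := by positivity
  rw [(summable_digits d hd).tsum_eq_zero_add, add_div, add_comm]
  congr 1
  · rw [← tsum_div_const]
    apply tsum_congr
    intro k
    rw [pow_succ _ (k + 1)]
    field_simp
  · simp

lemma isCarpet_FE {m n : ℕ} (hm : 2 ≤ m) (hn : 2 ≤ n) {D : Finset (ℕ × ℕ)} (hne : D.Nonempty)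
    (hD : ∀ d ∈ D, d.1 < m ∧ d.2 < n) : IsCarpet m n D (FE m n D) := by
  refine ⟨?_, ?_, ?_, ?_⟩
  · rw [FE_eq_preimage, ← ContinuousLinearEquiv.image_symm_eq_preimage]
    exact (isCompact_F hD).image coord.symm.continuous
  · obtain ⟨e, he⟩ := hne
    refine ⟨coord.symm (∑' k, ((e.1 : ℕ) : ℝ) / (m : ℝ) ^ (k + 1),
      ∑' k, ((e.2 : ℕ) : ℝ) / (n : ℝ) ^ (k + 1)), ?_⟩
    rw [FE_eq_preimage, Set.mem_preimage, ContinuousLinearEquiv.apply_symm_apply]
    exact ⟨fun _ => e, fun _ => he, rfl, rfl⟩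
  · rintro p ⟨d, hd, h0, h1⟩
    simp only at h0 h1
    rw [tsum_eq_ofDigits m (fun k => (d k).1) (fun k => (hD _ (hd k)).1)] at h0
    rw [tsum_eq_ofDigits n (fun k => (d k).2) (fun k => (hD _ (hd k)).2)] at h1
    rw [h0, h1]
    exact ⟨⟨Real.ofDigits_nonneg _, Real.ofDigits_le_one _⟩,
      ⟨Real.ofDigits_nonneg _, Real.ofDigits_le_one _⟩⟩
  · ext p
    simp only [Set.mem_iUnion, Set.mem_image]
    constructor
    · rintro ⟨d, hd, h0, h1⟩
      simp only at h0 h1
      refine ⟨d 0, hd 0, coord.symm (∑' k, ((d (k + 1)).1 : ℝ) / (m : ℝ) ^ (k + 1),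
        ∑' k, ((d (k + 1)).2 : ℝ) / (n : ℝ) ^ (k + 1)), ?_, ?_⟩
      · rw [FE_eq_preimage, Set.mem_preimage, ContinuousLinearEquiv.apply_symm_apply]
        exact ⟨fun k => d (k + 1), fun k => hd _, rfl, rfl⟩
      · rw [coord_symm_apply]
        apply coord.injective
        rw [coord_apply, coord_apply]
        rw [tsum_succ (by omega) (fun k => (d k).1) (fun k => (hD _ (hd k)).1)] at h0
        rw [tsum_succ (by omega) (fun k => (d k).2) (fun k => (hD _ (hd k)).2)] at h1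
        rw [h0, h1]
        simp [contraction]
    · rintro ⟨e, he, q, ⟨d, hd, h0, h1⟩, rfl⟩
      simp only at h0 h1
      have hd' : ∀ k, (fun k => Nat.casesOn k e d : ℕ → ℕ × ℕ) k ∈ D := by
        intro k
        cases k with
        | zero => exact he
        | succ k => exact hd k
      refine ⟨fun k => Nat.casesOn k e d, hd', ?_, ?_⟩
      · rw [tsum_succ (by omega) (fun k => ((fun k => Nat.casesOn k e d : ℕ → ℕ × ℕ) k).1)
          (fun k => (hD _ (hd' k)).1)]
        simp only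
        rw [← h0]
        simp [contraction]
      · rw [tsum_succ (by omega) (fun k => ((fun k => Nat.casesOn k e d : ℕ → ℕ × ℕ) k).2)
          (fun k => (hD _ (hd' k)).2)]
        simp only
        rw [← h1]
        simp [contraction]

lemma IsCarpet.eq_FE {m n : ℕ} (hm : 2 ≤ m) (hn : 2 ≤ n) {D : Finset (ℕ × ℕ)}
    (hD : ∀ d ∈ D, d.1 < m ∧ d.2 < n) {G : Set Plane} (h : IsCarpet m n D G) : G = FE m n D := by
  apply Set.Subset.antisymm
  · exact subset_digits hm hn h.subset_square h.eq_union.subset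
  · intro p hp
    refine digits_subset hm hn hD h.isCompact.isClosed h.nonempty ?_ p hp
    intro e he q hq
    rw [h.eq_union]
    simp only [Set.mem_iUnion, Set.mem_image]
    exact ⟨e, he, q, hq, rfl⟩

/-- existence and uniqueness of the carpet -/
lemma existsUnique_carpet {m n : ℕ} (hm : 2 ≤ m) (hn : 2 ≤ n) {D : Finset (ℕ × ℕ)}
    (hne : D.Nonempty) (hD : ∀ d ∈ D, d.1 < m ∧ d.2 < n) : ∃! G : Set Plane, IsCarpet m n D G :=
  ⟨FE m n D, isCarpet_FE hm hn hne hD, fun _ hG => hG.eq_FE hm hn hD⟩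

lemma dimH_FE (m n : ℕ) (D : Finset (ℕ × ℕ)) : dimH (FE m n D) = dimH (F m n D) := by
  rw [FE_eq_preimage]
  exact coord.dimH_preimage _

end

end Pool.Agent.H86.Carpet
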