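import Mathlib
import Pool.Agent.H86.CarpetGeo

set_option autoImplicit false

open MeasureTheory Metric Filter Topology
open scoped ENNReal NNReal

namespace Pool.Agent.H86.Carpet

noncomputable section

/-- parameters whose first `I` digits vanish -/
def BZ (I : ℕ) : Set (ℕ → Fin 2) := {b | ∀ i < I, b i = 0}

lemma digits_two_mem_BZ (I : ℕ) (y : ℝ) (hy0 : 0 ≤ y) (hy : y < ((2 : ℝ) ^ I)⁻¹) :
    Real.digits y 2 ∈ BZ I := by
  intro i hi
  apply digit_zero 2 i 1 0 y y (by norm_num) (one_dvd _) (by simp) hy0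
  push_cast
  have h1 : (2 : ℝ) ^ (i + 1) ≤ 2 ^ I := pow_le_pow_right₀ (by norm_num) hi
  calc y * (2 : ℝ) ^ (i + 1) < ((2 : ℝ) ^ I)⁻¹ * (2 : ℝ) ^ (i + 1) := by gcongr
    _ ≤ ((2 : ℝ) ^ I)⁻¹ * (2 : ℝ) ^ I := by gcongr
    _ = 1 := by field_simp

lemma dimH_X_BZ (I : ℕ) : ((1 / 8 : ℝ≥0) : ℝ≥0∞) ≤ dimH (X '' BZ I) := by
  have h1 := (psi_holder.mono (Set.image_subset_range X (BZ I))).dimH_image_le (by norm_num)
  have h2 : Set.Ico (0 : ℝ) (((2 : ℝ) ^ I)⁻¹) ⊆ psi '' (X '' BZ I) := by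
    intro y hy
    have hy1 : y ∈ Set.Ico (0 : ℝ) 1 := by
      refine ⟨hy.1, hy.2.trans_le ?_⟩
      apply inv_le_one_of_one_le₀
      exact one_le_pow₀ (by norm_num)
    refine ⟨X (Real.digits y 2), ⟨_, digits_two_mem_BZ I y hy.1 hy.2, rfl⟩, ?_⟩
    rw [psi_X]
    exact Real.ofDigits_digits (by norm_num) hy1
  have h3 : dimH (Set.Ico (0 : ℝ) (((2 : ℝ) ^ I)⁻¹)) = 1 := by
    rw [Real.dimH_of_nonempty_interior]
    · simp
    · rw [interior_Ico]
      exact Set.nonempty_Ioo.mpr (by positivity)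
  have h4 := dimH_mono h2
  rw [h3] at h4
  have h5 := h4.trans h1
  rw [ENNReal.le_div_iff_mul_le (by left; norm_num) (by left; norm_num)] at h5
  simpa using h5

lemma X_BZ_small (I : ℕ) (b : ℕ → Fin 2) (hb : b ∈ BZ I) : X b ≤ 3 / 4 * ((4 : ℝ) ^ I)⁻¹ := by
  unfold X
  rw [Real.ofDigits_eq_sum_add_ofDigits (A b) I]
  have h1 : ∑ i ∈ Finset.range I, Real.ofDigitsTerm (A b) i = 0 := by
    apply Finset.sum_eq_zero
    intro q hq
    rw [Finset.mem_range] at hq
    have : A b q = 0 := by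
      unfold A
      rw [if_neg]
      rintro ⟨i, hi, hi1⟩
      have h2 : i < I := by
        unfold Q at hi
        omega
      rw [hb i h2] at hi1
      exact absurd hi1 (by decide)
    simp [Real.ofDigitsTerm, this]
  rw [h1, zero_add, mul_comm]
  push_cast
  gcongr
  exact ofDigits_le_half _ (fun q => A_eq b _)

lemma digit_zero_scaled (B t K q C s : ℕ) [NeZero B] (hq : q ≤ 2 ^ K) (x ε : ℝ)
    (hx : x = C / (2 : ℝ) ^ s + ε) (hε0 : 0 ≤ ε) (hε : ε * (B : ℝ) ^ (t + 1) < 1)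
    (hdvd : 2 ^ (s + K) ∣ B ^ t) : Real.digits (q * x / 2 ^ K) B t = 0 := by
  have hq' : (q : ℝ) ≤ 2 ^ K := by exact_mod_cast hq
  apply digit_zero B t (2 ^ (s + K)) (q * C) (q * x / 2 ^ K) (q * ε / 2 ^ K) (by positivity) hdvd
  · rw [hx]
    push_cast
    rw [pow_add]
    field_simp
  · positivity
  · refine lt_of_le_of_lt ?_ hε
    gcongr
    rw [div_le_iff₀ (by positivity)]
    nlinarith

lemma digits_cross_scaled (K p q : ℕ) (hq : q ≤ 2 ^ K) (hp : p ≤ 2 ^ K) (b : ℕ → Fin 2)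
    (hb : b ∈ BZ (32 * (K + 2))) (m n : ℕ) [NeZero m] [NeZero n] (hm : m = 2 ^ 64)
    (hn : n = 3 * 2 ^ 126) (t : ℕ) :
    Real.digits (q * X b / 2 ^ K) m t = 0 ∨ Real.digits (p * X b / 2 ^ K) n t = 0 := by
  have hmR : (m : ℝ) = 2 ^ 64 := by rw [hm, Nat.cast_pow, Nat.cast_ofNat]
  have hnR : (n : ℝ) = 3 * 2 ^ 126 := by
    rw [hn, Nat.cast_mul, Nat.cast_pow, Nat.cast_ofNat, Nat.cast_ofNat]
  by_cases ht : t < K + 2
  · left
    have hq' : (q : ℝ) ≤ 2 ^ K := by exact_mod_cast hq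
    have hX0 := X_nonneg b
    apply digit_zero m t 1 0 (q * X b / 2 ^ K) (q * X b / 2 ^ K) (by norm_num) (one_dvd _) (by simp)
      (by positivity)
    rw [hmR]
    have h1 := X_BZ_small _ b hb
    have h2 : ((2 : ℝ) ^ 64) ^ (t + 1) ≤ (4 : ℝ) ^ (32 * (K + 2)) := by
      rw [show (4 : ℝ) = 2 ^ 2 by norm_num, ← pow_mul, ← pow_mul]
      exact pow_le_pow_right₀ (by norm_num) (by omega)
    have h3 : q * X b / 2 ^ K ≤ X b := by
      rw [div_le_iff₀ (by positivity)]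
      nlinarith
    calc q * X b / 2 ^ K * ((2 : ℝ) ^ 64) ^ (t + 1)
        ≤ (3 / 4 * ((4 : ℝ) ^ (32 * (K + 2)))⁻¹) * (4 : ℝ) ^ (32 * (K + 2)) := by
          have h4 := h3.trans h1
          gcongr
      _ = 3 / 4 := by field_simp
      _ < 1 := by norm_num
  · push Not at ht
    set i := Nat.log 4 (2 * t) with hi
    have h1 : 4 ^ i ≤ 2 * t := Nat.pow_log_le_self 4 (by omega)
    have h2 : 2 * t < 4 ^ (i + 1) := Nat.lt_pow_succ_log_self (by norm_num) _
    have h3 : 1 ≤ i := Nat.le_log_of_pow_le (by norm_num) (by omega)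
    rw [pow_succ] at h2
    obtain ⟨C, ε, hX, hε0, hε⟩ := X_block b (i + 1) (by omega)
    have h7 : 7 * 4 ^ (i + 1) = 28 * 4 ^ i := by ring
    have h16 : 16 * 4 ^ (i + 1) = 64 * 4 ^ i := by ring
    rw [h7] at hX
    rw [h16] at hε
    have e28 : (((4 : ℕ) ^ (28 * 4 ^ i) : ℕ) : ℝ) = (2 : ℝ) ^ (56 * 4 ^ i) := by
      push_cast
      rw [show (4 : ℝ) = 2 ^ 2 by norm_num, ← pow_mul]
      congr 1
      ring
    have e64 : (4 : ℝ) ^ (64 * 4 ^ i) = 2 ^ (128 * 4 ^ i) := by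
      rw [show (4 : ℝ) = 2 ^ 2 by norm_num, ← pow_mul]
      congr 1
      ring
    rw [e64] at hε
    rw [e28] at hX
    by_cases ht2 : 4 ^ i ≤ t
    · left
      apply digit_zero_scaled m t K q C (56 * 4 ^ i) hq (X b) ε hX hε0
      · rw [hmR]
        have h4 : ((2 : ℝ) ^ 64) ^ (t + 1) ≤ 2 ^ (128 * 4 ^ i) := by
          rw [← pow_mul]
          exact pow_le_pow_right₀ (by norm_num) (by omega)
        calc ε * ((2 : ℝ) ^ 64) ^ (t + 1) ≤ (3 / 4 * ((2 : ℝ) ^ (128 * 4 ^ i))⁻¹) * 2 ^ (128 * 4 ^ i) := by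
              gcongr
          _ = 3 / 4 := by field_simp
          _ < 1 := by norm_num
      · rw [hm, ← pow_mul]
        exact pow_dvd_pow 2 (by omega)
    · push Not at ht2
      right
      apply digit_zero_scaled n t K p C (56 * 4 ^ i) hp (X b) ε hX hε0
      · have h4 : (n : ℝ) ^ (t + 1) ≤ 2 ^ (128 * 4 ^ i) := by
          calc (n : ℝ) ^ (t + 1) ≤ ((2 : ℝ) ^ 128) ^ (t + 1) := by
                apply pow_le_pow_left₀ (by positivity)
                rw [hnR]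
                norm_num
            _ ≤ _ := by
                rw [← pow_mul]
                exact pow_le_pow_right₀ (by norm_num) (by omega)
        calc ε * (n : ℝ) ^ (t + 1) ≤ (3 / 4 * ((2 : ℝ) ^ (128 * 4 ^ i))⁻¹) * 2 ^ (128 * 4 ^ i) := by
              gcongr
          _ = 3 / 4 := by field_simp
          _ < 1 := by norm_num
      · rw [hn, mul_pow, ← pow_mul]
        exact Dvd.dvd.mul_left (pow_dvd_pow 2 (by omega)) _

lemma scaled_mem (K p q : ℕ) (hq : q ≤ 2 ^ K) (hp : p ≤ 2 ^ K) (b : ℕ → Fin 2)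
    (hb : b ∈ BZ (32 * (K + 2))) (m n : ℕ) (hm : m = 2 ^ 64) (hn : n = 3 * 2 ^ 126) :
    (q * X b / 2 ^ K, p * X b / 2 ^ K) ∈ F m n (cross m n) := by
  have hm1 : 1 < m := by rw [hm]; norm_num
  have hn1 : 1 < n := by rw [hn]; norm_num
  have : NeZero m := ⟨by omega⟩
  have : NeZero n := ⟨by omega⟩
  have hX0 := X_nonneg b
  have hX1 := X_lt_one b
  have key : ∀ r : ℕ, r ≤ 2 ^ K → (r * X b / 2 ^ K) ∈ Set.Ico (0 : ℝ) 1 := by
    intro r hr
    have hr' : (r : ℝ) ≤ 2 ^ K := by exact_mod_cast hr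
    refine ⟨by positivity, lt_of_le_of_lt ?_ hX1⟩
    rw [div_le_iff₀ (by positivity)]
    nlinarith
  refine ⟨fun k => ((Real.digits (q * X b / 2 ^ K) m k : ℕ), (Real.digits (p * X b / 2 ^ K) n k : ℕ)),
    ?_, ?_, ?_⟩
  · intro k
    rw [mem_cross]
    rcases digits_cross_scaled K p q hq hp b hb m n hm hn k with h | h
    · right
      exact ⟨by simp [h], (Real.digits (p * X b / 2 ^ K) n k).2⟩
    · left
      exact ⟨(Real.digits (q * X b / 2 ^ K) m k).2, by simp [h]⟩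
  · have h := Real.ofDigits_digits (b := m) hm1 (key q hq)
    simp only [Real.ofDigits, Real.ofDigitsTerm] at h
    simp only [div_eq_mul_inv] at h ⊢
    exact h.symm
  · have h := Real.ofDigits_digits (b := n) hn1 (key p hp)
    simp only [Real.ofDigits, Real.ofDigitsTerm] at h
    simp only [div_eq_mul_inv] at h ⊢
    exact h.symm

/-- the map `S_w` of a finite word -/
def wordMap (m n : ℕ) (w : List (ℕ × ℕ)) (q : Plane) : Plane := w.foldr (contraction m n) q

lemma wordMap_zero_coord (m n : ℕ) (w : List (ℕ × ℕ)) (q : Plane) :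
    (wordMap m n w q) 0 = (wordMap m n w 0) 0 + q 0 / (m : ℝ) ^ w.length := by
  induction w with
  | nil => simp [wordMap]
  | cons d w ih =>
    simp only [wordMap, List.foldr_cons, List.length_cons] at ih ⊢
    have h1 : ∀ r : Plane, (contraction m n d r) 0 = (r 0 + d.1) / m := by
      intro r; simp [contraction]
    rw [h1, h1, ih, pow_succ, ← div_div, ← add_div]
    congr 1
    ring

lemma wordMap_one_coord (m n : ℕ) (w : List (ℕ × ℕ)) (q : Plane) :
    (wordMap m n w q) 1 = (wordMap m n w 0) 1 + q 1 / (n : ℝ) ^ w.length := by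
  induction w with
  | nil => simp [wordMap]
  | cons d w ih =>
    simp only [wordMap, List.foldr_cons, List.length_cons] at ih ⊢
    have h1 : ∀ r : Plane, (contraction m n d r) 1 = (r 1 + d.2) / n := by
      intro r; simp [contraction]
    rw [h1, h1, ih, pow_succ, ← div_div, ← add_div]
    congr 1
    ring

lemma wordMap_mem {m n : ℕ} {D : Finset (ℕ × ℕ)} {G : Set Plane} (hG : IsCarpet m n D G)
    (w : List (ℕ × ℕ)) (hw : ∀ d ∈ w, d ∈ D) (q : Plane) (hq : q ∈ G) : wordMap m n w q ∈ G := by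
  induction w with
  | nil => simpa [wordMap] using hq
  | cons d w ih =>
    have h1 := ih (fun e he => hw e (List.mem_cons_of_mem _ he))
    rw [hG.eq_union]
    simp only [Set.mem_iUnion, Set.mem_image]
    exact ⟨d, hw d (List.mem_cons_self), _, h1, rfl⟩

/-- Lines of positive rational slope through the corner points `S_w(0)` have large slices. -/
lemma dimH_line {m n : ℕ} (hm : m = 2 ^ 64) (hn : n = 3 * 2 ^ 126) {G : Set Plane}
    (hG : IsCarpet m n (cross m n) G) (w : List (ℕ × ℕ)) (hw : ∀ d ∈ w, d ∈ cross m n) (a : ℚ)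
    (ha : 0 < a) :
    ((1 / 8 : ℝ≥0) : ℝ≥0∞) ≤ dimH (G ∩ line (wordMap m n w 0) !₂[1, (a : ℝ)]) := by
  have hm1 : 2 ≤ m := by rw [hm]; norm_num
  have hn1 : 2 ≤ n := by rw [hn]; norm_num
  have hm0 : (0 : ℝ) < m := by positivity
  have hn0 : (0 : ℝ) < n := by positivity
  have hGE := hG.eq_FE hm1 hn1 (fun d hd => cross_lt (by omega) (by omega) hd)
  set N := w.length with hN
  obtain ⟨a', ha'⟩ : ∃ a' : ℚ, a' = a * ((n : ℚ) / m) ^ N := ⟨_, rfl⟩
  have hm0' : (0 : ℚ) < m := by exact_mod_cast (by omega : 0 < m)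
  have hn0' : (0 : ℚ) < n := by exact_mod_cast (by omega : 0 < n)
  have ha'0 : 0 < a' := by rw [ha']; positivity
  obtain ⟨p, hp⟩ : ∃ p : ℕ, a'.num = p := Int.eq_ofNat_of_zero_le (Rat.num_pos.mpr ha'0).le
  have hpq : (a' : ℝ) = (p : ℝ) / (a'.den : ℝ) := by
    have h1 : (a' : ℝ) = (a'.num : ℝ) / (a'.den : ℝ) := by exact_mod_cast (Rat.num_div_den a').symm
    rw [h1, hp]
    simp
  set q := a'.den with hq
  have hq0 : (0 : ℝ) < q := by exact_mod_cast a'.den_pos
  obtain ⟨K, hK1, hK2⟩ : ∃ K, p ≤ 2 ^ K ∧ q ≤ 2 ^ K := by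
    refine ⟨max p q, ?_, ?_⟩
    · exact (Nat.lt_two_pow_self (n := p)).le.trans (Nat.pow_le_pow_right (by norm_num) (le_max_left _ _))
    · exact (Nat.lt_two_pow_self (n := q)).le.trans (Nat.pow_le_pow_right (by norm_num) (le_max_right _ _))
  have haR : (a : ℝ) * ((n : ℝ) / m) ^ N = (p : ℝ) / (q : ℝ) := by
    rw [← hpq, ha']
    push_cast
    ring
  set v : Plane := !₂[1, (a : ℝ)] with hv
  set c : Plane := wordMap m n w 0 with hc
  set f : ℝ → Plane := fun x => c + (q * x / 2 ^ K / (m : ℝ) ^ N) • v with hf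
  have hf0 : ∀ x, (f x) 0 = c 0 + q * x / 2 ^ K / (m : ℝ) ^ N := by
    intro x; simp [hf, hv]
  have hf1 : ∀ x, (f x) 1 = c 1 + q * x / 2 ^ K / (m : ℝ) ^ N * a := by
    intro x; simp [hf, hv]
  obtain ⟨r, hr⟩ : ∃ r : ℝ, r = q / 2 ^ K / (m : ℝ) ^ N := ⟨_, rfl⟩
  have hr0 : 0 < r := by rw [hr]; positivity
  have hanti : AntilipschitzWith (Real.toNNReal r⁻¹) f := by
    apply AntilipschitzWith.of_le_mul_dist
    intro x y
    rw [Real.coe_toNNReal _ (by positivity)]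
    have h1 : ‖(f x - f y) 0‖ ≤ ‖f x - f y‖ := PiLp.norm_apply_le _ _
    have h2 : (f x - f y) 0 = r * (x - y) := by
      rw [PiLp.sub_apply, hf0, hf0, hr]
      ring
    rw [h2, norm_mul, Real.norm_of_nonneg hr0.le] at h1
    rw [dist_eq_norm, dist_eq_norm]
    calc ‖x - y‖ = r⁻¹ * (r * ‖x - y‖) := by field_simp
      _ ≤ _ := by gcongr
  refine (dimH_X_BZ (32 * (K + 2))).trans ((hanti.le_dimH_image _).trans (dimH_mono ?_))
  rintro _ ⟨_, ⟨b, hb, rfl⟩, rfl⟩
  constructor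
  · have h1 := scaled_mem K p q hK2 hK1 b hb m n hm hn
    have h2 : (!₂[q * X b / 2 ^ K, p * X b / 2 ^ K] : Plane) ∈ G := by
      rw [hGE]
      exact h1
    have h3 := wordMap_mem hG w hw _ h2
    have h4 : f (X b) = wordMap m n w !₂[q * X b / 2 ^ K, p * X b / 2 ^ K] := by
      apply coord.injective
      rw [coord_apply, coord_apply, hf0, hf1,
        wordMap_zero_coord m n w !₂[q * X b / 2 ^ K, p * X b / 2 ^ K],
        wordMap_one_coord m n w !₂[q * X b / 2 ^ K, p * X b / 2 ^ K]]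
      rw [← hN, ← hc]
      simp only [Prod.mk.injEq]
      refine ⟨by simp, ?_⟩
      have h5 : q * X b / 2 ^ K / (m : ℝ) ^ N * a = p * X b / 2 ^ K / (n : ℝ) ^ N := by
        have h6 : (a : ℝ) = (p : ℝ) / q * ((m : ℝ) / n) ^ N := by
          rw [← haR, mul_assoc, ← mul_pow]
          rw [show (n : ℝ) / m * (m / n) = 1 by field_simp, one_pow, mul_one]
        rw [h6, div_pow]
        field_simp
      rw [h5]
      simp
    rw [h4]
    exact h3
  · exact ⟨_, rfl⟩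

end

end Pool.Agent.H86.Carpet
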