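import Mathlib
import Pool.Agent.H86.CarpetLines

set_option autoImplicit false

open MeasureTheory Metric Filter Topology
open scoped ENNReal NNReal

namespace Pool.Agent.H86.Carpet

noncomputable section

lemma exists_digit (M : ℕ) (hM : 0 < M) (u : ℝ) (h0 : 0 ≤ u) (h1 : u ≤ M) :
    ∃ i : ℕ, i < M ∧ 0 ≤ u - i ∧ u - i ≤ 1 := by
  rcases lt_or_eq_of_le h1 with h | h
  · refine ⟨⌊u⌋₊, (Nat.floor_lt h0).mpr h, ?_, ?_⟩
    · have := Nat.floor_le h0
      linarith
    · have := (Nat.lt_floor_add_one u).le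
      linarith
  · refine ⟨M - 1, by omega, ?_, ?_⟩
    · rw [h]
      have : ((M - 1 : ℕ) : ℝ) ≤ M := by exact_mod_cast Nat.sub_le M 1
      linarith
    · rw [h, Nat.cast_sub hM]
      push_cast
      linarith

lemma exists_word {m n : ℕ} (hm : 2 ≤ m) (hmn : m < n) (N : ℕ) : ∀ a b : ℝ, 0 < a → -a ≤ b → b ≤ 1 →
    ∃ w : List (ℕ × ℕ), (∀ d ∈ w, d ∈ cross m n) ∧
      |b - ((wordMap m n w 0) 1 - a * (wordMap m n w 0) 0)| ≤ (1 + a) * (1 / (m : ℝ)) ^ N := by
  have hm0 : (0 : ℝ) < m := by positivity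
  have hn0 : (0 : ℝ) < n := by
    have : 0 < n := by omega
    exact_mod_cast this
  have hmn' : (m : ℝ) ≤ n := by exact_mod_cast hmn.le
  induction N with
  | zero =>
    intro a b ha h1 h2
    refine ⟨[], by simp, ?_⟩
    simp only [wordMap, List.foldr_nil, PiLp.zero_apply, mul_zero, sub_zero, pow_zero, mul_one]
    rw [abs_le]
    constructor <;> linarith
  | succ N ih =>
    intro a b ha h1 h2
    obtain ⟨a', ha'⟩ : ∃ a' : ℝ, a' = a * n / m := ⟨_, rfl⟩
    have ha'0 : 0 < a' := by rw [ha']; positivity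
    have hex : ∃ d ∈ cross m n, -a' ≤ a' * d.1 + n * b - d.2 ∧ a' * d.1 + n * b - d.2 ≤ 1 := by
      by_cases hb : 0 ≤ b
      · obtain ⟨j, hj, h3, h4⟩ := exists_digit n (by omega) (n * b) (by positivity) (by nlinarith)
        refine ⟨(0, j), mem_cross.mpr (Or.inr ⟨rfl, hj⟩), ?_, ?_⟩
        · simp only [Nat.cast_zero, mul_zero, zero_add]
          linarith
        · simp only [Nat.cast_zero, mul_zero, zero_add]
          linarith
      · push Not at hb
        obtain ⟨i, hi, h3, h4⟩ := exists_digit m (by omega) (-b * m / a)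
          (by have : 0 < -b := by linarith
              positivity)
          (by rw [div_le_iff₀ ha]; nlinarith)
        have h5 : n * b = - (a' * (-b * m / a)) := by
          rw [ha']
          field_simp
        refine ⟨(i, 0), mem_cross.mpr (Or.inl ⟨hi, rfl⟩), ?_, ?_⟩
        · simp only [Nat.cast_zero, sub_zero]
          rw [h5]
          nlinarith
        · simp only [Nat.cast_zero, sub_zero]
          rw [h5]
          nlinarith
    obtain ⟨d, hd, h3, h4⟩ := hex
    obtain ⟨w, hw, h5⟩ := ih a' (a' * d.1 + n * b - d.2) ha'0 h3 h4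
    refine ⟨d :: w, ?_, ?_⟩
    · intro e he
      rcases List.mem_cons.mp he with h | h
      · rw [h]; exact hd
      · exact hw e h
    · have e0 : (wordMap m n (d :: w) 0) 0 = ((wordMap m n w 0) 0 + d.1) / m := by
        simp [wordMap, contraction]
      have e1 : (wordMap m n (d :: w) 0) 1 = ((wordMap m n w 0) 1 + d.2) / n := by
        simp [wordMap, contraction]
      rw [e0, e1]
      set x := (wordMap m n w 0) 0
      set y := (wordMap m n w 0) 1
      have e2 : b - ((y + d.2) / n - a * ((x + d.1) / m)) =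
          ((a' * d.1 + n * b - d.2) - (y - a' * x)) / n := by
        rw [ha']
        field_simp
        ring
      rw [e2, abs_div, abs_of_pos hn0, div_le_iff₀ hn0]
      refine h5.trans ?_
      have e3 : (1 + a) * (1 / (m : ℝ)) ^ (N + 1) * n = (n / m + a * n / m) * (1 / (m : ℝ)) ^ N := by
        rw [pow_succ]
        field_simp
      rw [e3, ← ha']
      have e4 : 1 ≤ (n : ℝ) / m := by
        rw [le_div_iff₀ hm0]
        linarith
      gcongr

lemma norm_snd (z : ℝ) : ‖(!₂[0, z] : Plane)‖ = |z| := by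
  rw [EuclideanSpace.norm_eq]
  simp [Real.sqrt_sq_eq_abs]

/-- The lines with large slices are dense among the lines of positive slope that meet the unit
square. -/
lemma dense_lines {m n : ℕ} (hm : m = 2 ^ 64) (hn : n = 3 * 2 ^ 126) {G : Set Plane}
    (hG : IsCarpet m n (cross m n) G) (p v : Plane) (hp0 : 0 ≤ p 0 ∧ p 0 ≤ 1)
    (hp1 : 0 ≤ p 1 ∧ p 1 ≤ 1) (hv0 : 0 < v 0) (hv1 : 0 < v 1) (ε : ℝ) (hε : 0 < ε) :
    ∃ p' v' : Plane, ‖p' - p‖ < ε ∧ ‖v' - v‖ < ε ∧ 0 < v' 0 ∧ 0 < v' 1 ∧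
      ((1 / 8 : ℝ≥0) : ℝ≥0∞) ≤ dimH (G ∩ line p' v') := by
  have hm1 : 2 ≤ m := by rw [hm]; norm_num
  have hn1 : 2 ≤ n := by rw [hn]; norm_num
  have hmn : m < n := by rw [hm, hn]; norm_num
  have hm0 : (0 : ℝ) < m := by positivity
  obtain ⟨a₀, ha₀⟩ : ∃ a₀ : ℝ, a₀ = v 1 / v 0 := ⟨_, rfl⟩
  have ha₀0 : 0 < a₀ := by rw [ha₀]; positivity
  obtain ⟨b₀, hb₀⟩ : ∃ b₀ : ℝ, b₀ = p 1 - a₀ * p 0 := ⟨_, rfl⟩
  have hb1 : -a₀ ≤ b₀ := by rw [hb₀]; nlinarith
  have hb2 : b₀ ≤ 1 := by rw [hb₀]; nlinarith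
  obtain ⟨δ, hδ⟩ : ∃ δ : ℝ, δ = ε / (3 * (1 + v 0)) := ⟨_, rfl⟩
  have hδ0 : 0 < δ := by rw [hδ]; positivity
  have hδ1 : 3 * δ * (1 + v 0) = ε := by rw [hδ]; field_simp
  obtain ⟨N, hN⟩ : ∃ N : ℕ, (1 + a₀) * (1 / (m : ℝ)) ^ N < δ := by
    have h4 : Tendsto (fun N : ℕ => (1 + a₀) * ((1 : ℝ) / m) ^ N) atTop (𝓝 ((1 + a₀) * 0)) := by
      apply Tendsto.const_mul
      apply tendsto_pow_atTop_nhds_zero_of_lt_one (by positivity)
      rw [div_lt_one hm0]
      exact_mod_cast (by omega : 1 < m)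
    rw [mul_zero] at h4
    exact (h4.eventually_lt_const hδ0).exists
  obtain ⟨w, hw, hw1⟩ := exists_word hm1 hmn N a₀ b₀ ha₀0 hb1 hb2
  obtain ⟨a, ha1, ha2⟩ := exists_rat_btwn (show a₀ < a₀ + δ by linarith)
  have haR : (0 : ℝ) < a := by linarith
  have ha : 0 < a := by exact_mod_cast haR
  have hline := dimH_line hm hn hG w hw a ha
  have hcm : wordMap m n w 0 ∈ G := by
    apply wordMap_mem hG w hw
    rw [hG.eq_FE hm1 hn1 (fun d hd => cross_lt (by omega) (by omega) hd)]
    refine ⟨fun _ => (0, 0), fun _ => mem_cross.mpr (Or.inl ⟨by simp only; omega, rfl⟩), ?_, ?_⟩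
    · simp
    · simp
  have hcs := hG.subset_square _ hcm
  set c := wordMap m n w 0 with hc
  have hw2 : |c 1 - a₀ * c 0 - b₀| < δ := by
    rw [abs_sub_comm]
    exact hw1.trans_lt hN
  have hv00 : v 0 ≠ 0 := hv0.ne'
  refine ⟨!₂[p 0, c 1 + a * (p 0 - c 0)], !₂[v 0, a * v 0], ?_, ?_, ?_, ?_, ?_⟩
  · have e1 : (!₂[p 0, c 1 + a * (p 0 - c 0)] : Plane) - p =
        !₂[0, (c 1 - a₀ * c 0 - b₀) + (a - a₀) * (p 0 - c 0)] := by
      ext i
      fin_cases i
      · simp
      · simp only [Fin.mk_one, PiLp.sub_apply]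
        simp
        rw [hb₀]
        ring
    rw [e1, norm_snd]
    have e2 : |(c 1 - a₀ * c 0 - b₀) + (a - a₀) * (p 0 - c 0)| ≤ δ + δ := by
      refine (abs_add_le _ _).trans (add_le_add hw2.le ?_)
      rw [abs_mul]
      have e3 : |(a : ℝ) - a₀| ≤ δ := by
        rw [abs_le]; constructor <;> linarith
      have e4 : |p 0 - c 0| ≤ 1 := by
        rw [abs_le]; constructor <;> linarith [hcs.1.1, hcs.1.2, hp0.1, hp0.2]
      calc |(a : ℝ) - a₀| * |p 0 - c 0| ≤ δ * 1 := by gcongr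
        _ = δ := mul_one _
    nlinarith
  · have e1 : (!₂[v 0, a * v 0] : Plane) - v = !₂[0, (a - a₀) * v 0] := by
      ext i
      fin_cases i
      · simp
      · simp only [Fin.mk_one, PiLp.sub_apply]
        simp
        rw [ha₀]
        field_simp
    rw [e1, norm_snd, abs_mul, abs_of_pos hv0, abs_of_pos (by linarith)]
    nlinarith
  · simpa using hv0
  · simp
    positivity
  · have e1 : line !₂[p 0, c 1 + a * (p 0 - c 0)] !₂[v 0, a * v 0] = line c !₂[1, (a : ℝ)] := by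
      ext q
      constructor
      · rintro ⟨t, rfl⟩
        refine ⟨p 0 - c 0 + t * v 0, ?_⟩
        ext i
        fin_cases i
        · simp
          ring
        · simp
          ring
      · rintro ⟨t, rfl⟩
        refine ⟨(t - (p 0 - c 0)) / v 0, ?_⟩
        ext i
        fin_cases i
        · simp
          field_simp
          ring
        · simp
          field_simp
          ring
    rw [e1]
    exact hline

end

end Pool.Agent.H86.Carpet
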