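import Pool.Agent.H86.C.SumA
import Pool.Agent.H86.C.MainU
import Pool.Agent.H86.C.FinQ
import Pool.Agent.H86.C.BcAll
import Pool.Agent.H86.C.K.W
import Pool.Agent.H86.C.K.D
import Pool.Agent.H86.P.PAll

/-! # The residue bound `2 ^ N < 4/3 * 3 ^ od x N * x` for every `x` reaching `1`, without hypotheses -/

namespace H86C

theorem residue {x N : ℕ} (hx : 0 < x) (h1 : H1Col.T^[N] x = 1) (hmin : ∀ i < N, H1Col.T^[i] x ≠ 1) :
    (2 : ℝ) ^ N < 4 / 3 * (3 ^ H1Col.od x N * x) :=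
  res_all (blocks_all baseAll kerW kerD) H86P.verified H86P.small hx h1 hmin

end H86C
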